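import Mathlib

set_option autoImplicit false

/-!
Elementary tools around ideals of projective dimension at most one, in every universe
(problem MP_1cfa24_ag).
-/

namespace Pool.Agent.H89.PdU

universe u

/-- `I` has a finite free cover with projective kernel (that is, projective dimension at most 1). -/
def PdLeOne (R : Type u) [CommRing R] (I : Ideal R) : Prop :=
  ∃ (m : ℕ) (f : (Fin m → R) →ₗ[R] ↥I), Function.Surjective f ∧
    Module.Projective R ↥(LinearMap.ker f)

theorem pdLeOne_top (R : Type u) [CommRing R] : PdLeOne R (⊤ : Ideal R) := by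
  have hmem : ∀ v : Fin 1 → R, (LinearMap.proj (R := R) (φ := fun _ : Fin 1 => R) 0) v ∈
      (⊤ : Ideal R) := fun _ => Submodule.mem_top
  refine ⟨1, LinearMap.codRestrict (⊤ : Ideal R) (LinearMap.proj 0) hmem, ?_, ?_⟩
  · rintro ⟨x, _⟩
    exact ⟨fun _ => x, by apply Subtype.ext; rfl⟩
  · have : LinearMap.ker (LinearMap.codRestrict (⊤ : Ideal R)
        (LinearMap.proj (R := R) (φ := fun _ : Fin 1 => R) 0) hmem) = ⊥ := by
      rw [LinearMap.ker_eq_bot']
      intro v hv
      funext i
      have : i = 0 := Subsingleton.elim _ _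
      subst this
      exact congrArg Subtype.val hv
    rw [this]
    infer_instance

/-- The basic step: if `g ∈ I'`, `h` is a nonzerodivisor and `h ∣ g * b → h ∣ b`,
then `(g) + h I'` again has projective dimension at most one. -/
theorem pdLeOne_step {R : Type u} [CommRing R] [IsDomain R] {I' I : Ideal R} {g h : R}
    (hg : g ∈ I') (hh : h ≠ 0) (hcop : ∀ b, h ∣ g * b → h ∣ b)
    (hI : I = Ideal.span {g} ⊔ Ideal.span {h} * I') (hp : PdLeOne R I') : PdLeOne R I := by
  obtain ⟨m, f, hf, hproj⟩ := hp
  -- membership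
  have hmem : ∀ (b : R) (a : I'), g * b + h * (a : R) ∈ I := by
    intro b a
    rw [hI]
    refine Submodule.add_mem_sup ?_ ?_
    · exact Ideal.mul_mem_right _ _ (Ideal.subset_span rfl)
    · exact Ideal.mul_mem_mul (Ideal.subset_span rfl) a.2
  let F₀ : (Fin (m + 1) → R) →ₗ[R] R :=
    (LinearMap.mulLeft R g) ∘ₗ (LinearMap.proj 0) +
      (LinearMap.mulLeft R h) ∘ₗ I'.subtype ∘ₗ f ∘ₗ (LinearMap.funLeft R R Fin.succ)
  have hF₀ : ∀ w, F₀ w = g * w 0 + h * (f (fun i => w i.succ) : R) := by
    intro w
    simp only [F₀, LinearMap.add_apply, LinearMap.comp_apply, LinearMap.mulLeft_apply,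
      LinearMap.proj_apply, Submodule.subtype_apply]
    rfl
  let F : (Fin (m + 1) → R) →ₗ[R] I := LinearMap.codRestrict I F₀ (fun w => by
    rw [hF₀]; exact hmem _ _)
  have hF : ∀ w, (F w : R) = g * w 0 + h * (f (fun i => w i.succ) : R) := fun w => hF₀ w
  obtain ⟨v₀, hv₀⟩ := hf ⟨g, hg⟩
  refine ⟨m + 1, F, ?_, ?_⟩
  · rintro ⟨x, hx⟩
    rw [hI] at hx
    obtain ⟨y, hy, z, hz, rfl⟩ := Submodule.mem_sup.1 hx
    obtain ⟨b, rfl⟩ := Ideal.mem_span_singleton'.1 hy
    obtain ⟨a, ha, rfl⟩ := Ideal.mem_span_singleton_mul.1 hz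
    obtain ⟨v, hv⟩ := hf ⟨a, ha⟩
    refine ⟨Fin.cons b v, ?_⟩
    apply Subtype.ext
    rw [hF]
    simp [hv, mul_comm]
  · -- the kernel is isomorphic to `R × ker f`
    let φ₀ : (R × LinearMap.ker f) →ₗ[R] (Fin (m + 1) → R) :=
      { toFun := fun p => Fin.cons (h * p.1) ((p.2 : Fin m → R) - p.1 • v₀)
        map_add' := by
          rintro ⟨a, u⟩ ⟨b, v⟩
          funext i
          refine Fin.cases ?_ (fun j => ?_) i
          · simp [mul_add]
          · simp [add_mul]; ring
        map_smul' := by
          rintro c ⟨a, u⟩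
          funext i
          refine Fin.cases ?_ (fun j => ?_) i
          · simp; ring
          · simp; ring }
    have hφ₀ : ∀ p : R × LinearMap.ker f,
        φ₀ p = Fin.cons (h * p.1) ((p.2 : Fin m → R) - p.1 • v₀) := fun p => rfl
    have hφmem : ∀ p, φ₀ p ∈ LinearMap.ker F := by
      rintro ⟨a, u⟩
      rw [LinearMap.mem_ker]
      apply Subtype.ext
      rw [hF, hφ₀]
      have hu : f (u : Fin m → R) = 0 := u.2
      simp only [Fin.cons_zero, Fin.cons_succ]
      have : (fun i => ((u : Fin m → R) - a • v₀) i) = (u : Fin m → R) - a • v₀ := rfl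
      rw [this, map_sub, map_smul, hu, hv₀]
      simp
      ring
    let φ : (R × LinearMap.ker f) →ₗ[R] LinearMap.ker F :=
      LinearMap.codRestrict (LinearMap.ker F) φ₀ hφmem
    have hinj : Function.Injective φ := by
      rw [← LinearMap.ker_eq_bot, LinearMap.ker_eq_bot']
      rintro ⟨a, u⟩ hau
      have h1 : φ₀ (a, u) = 0 := congrArg Subtype.val hau
      rw [hφ₀] at h1
      have h2 := congrFun h1 0
      simp only [Fin.cons_zero, Pi.zero_apply, mul_eq_zero] at h2
      have ha : a = 0 := by
        rcases h2 with h2 | h2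
        · exact absurd h2 hh
        · exact h2
      subst ha
      have hu : u = 0 := by
        apply Subtype.ext
        funext j
        have h3 := congrFun h1 j.succ
        simpa using h3
      rw [hu]
      rfl
    have hsurj : Function.Surjective φ := by
      rintro ⟨w, hw⟩
      rw [LinearMap.mem_ker] at hw
      have h1 : (F w : R) = 0 := by rw [hw]; rfl
      rw [hF] at h1
      have h2 : h ∣ g * w 0 := ⟨-(f (fun i => w i.succ) : R), by linear_combination h1⟩
      obtain ⟨c, hc⟩ := hcop _ h2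
      have h3 : (f (fun i => w i.succ) : R) = -(g * c) := by
        apply mul_left_cancel₀ hh
        rw [hc] at h1
        linear_combination h1
      have h4 : (fun i => w i.succ) + c • v₀ ∈ LinearMap.ker f := by
        rw [LinearMap.mem_ker, map_add, map_smul, hv₀]
        apply Subtype.ext
        simp [h3]
        ring
      refine ⟨(c, ⟨_, h4⟩), ?_⟩
      apply Subtype.ext
      change φ₀ _ = w
      rw [hφ₀]
      funext i
      refine Fin.cases ?_ (fun j => ?_) i
      · simp [hc]
      · simp
    have e : (R × LinearMap.ker f) ≃ₗ[R] LinearMap.ker F := LinearEquiv.ofBijective φ ⟨hinj, hsurj⟩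
    exact Module.Projective.of_equiv e

/-- An ideal containing two coprime elements and different from the whole ring is not
projective. -/
theorem not_projective {R : Type u} [CommRing R] [IsDomain R] {I : Ideal R} {a b : R}
    (ha : a ∈ I) (hb : b ∈ I) (ha0 : a ≠ 0) (hcop : ∀ v, a ∣ b * v → a ∣ v) (hI : I ≠ ⊤) :
    ¬ Module.Projective R I := by
  intro hproj
  obtain ⟨s, hs⟩ := hproj.out
  apply hI
  rw [Ideal.eq_top_iff_one]
  set A : I := ⟨a, ha⟩
  set B : I := ⟨b, hb⟩
  have h1 : b • s A = a • s B := by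
    rw [← map_smul, ← map_smul]
    congr 1
    apply Subtype.ext
    simp [A, B, mul_comm]
  have h2 : ∀ i, ∃ c, s A i = a * c := by
    intro i
    have h3 := congrArg (fun (w : I →₀ R) => w i) h1
    simp only [Finsupp.smul_apply, smul_eq_mul] at h3
    exact hcop _ ⟨_, h3⟩
  choose c hc using h2
  have h4 : (Finsupp.linearCombination R id) (s A) = A := hs A
  rw [Finsupp.linearCombination_apply, Finsupp.sum] at h4
  have h5 : (∑ i ∈ (s A).support, (s A i) • ((i : I) : R)) = a := by
    have := congrArg (Subtype.val) h4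
    simpa [A] using this
  have h6 : a * (∑ i ∈ (s A).support, c i • ((i : I) : R)) = a * 1 := by
    rw [mul_one, Finset.mul_sum]
    conv_rhs => rw [← h5]
    refine Finset.sum_congr rfl (fun i _ => ?_)
    rw [hc i]
    simp [mul_assoc]
  have h7 := mul_left_cancel₀ ha0 h6
  rw [← h7]
  exact Submodule.sum_mem _ (fun i _ => Submodule.smul_mem _ _ i.2)

/-- If `I` has projective dimension at most one then `I` is saturated with respect to a
length three regular sequence. -/
theorem mem_of_pdLeOne {R : Type u} [CommRing R] [IsDomain R] {I : Ideal R} {x y z w : R}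
    (hx0 : x ≠ 0) (hz0 : z ≠ 0)
    (hxy : ∀ a b, y * a = x * b → x ∣ a)
    (hyz : ∀ a b, y * a = z * b → z ∣ a)
    (hxyz : ∀ a b c, x * a + y * b + z * c = 0 → ∃ p q, a = z * p - y * q)
    (hI : PdLeOne R I) (hxw : x * w ∈ I) (hyw : y * w ∈ I) (hzw : z * w ∈ I) : w ∈ I := by
  obtain ⟨m, f, hf, hproj⟩ := hI
  obtain ⟨a, ha⟩ := hf ⟨_, hxw⟩
  obtain ⟨b, hb⟩ := hf ⟨_, hyw⟩
  obtain ⟨c, hc⟩ := hf ⟨_, hzw⟩
  have hrx : z • b - y • c ∈ LinearMap.ker f := by
    rw [LinearMap.mem_ker, map_sub, map_smul, map_smul, hb, hc]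
    apply Subtype.ext
    simp; ring
  have hry : x • c - z • a ∈ LinearMap.ker f := by
    rw [LinearMap.mem_ker, map_sub, map_smul, map_smul, hc, ha]
    apply Subtype.ext
    simp; ring
  have hrz : y • a - x • b ∈ LinearMap.ker f := by
    rw [LinearMap.mem_ker, map_sub, map_smul, map_smul, ha, hb]
    apply Subtype.ext
    simp; ring
  -- solve the syzygy inside the kernel
  have key : ∃ u₁ u₂ u₃ : LinearMap.ker f,
      (⟨_, hrx⟩ : LinearMap.ker f) = z • u₂ - y • u₃ ∧
      (⟨_, hry⟩ : LinearMap.ker f) = x • u₃ - z • u₁ ∧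
      (⟨_, hrz⟩ : LinearMap.ker f) = y • u₁ - x • u₂ := by
    have hflat : Module.Flat R (LinearMap.ker f) := inferInstance
    have hrel : ∑ i, (![x, y, z] : Fin 3 → R) i •
        (![⟨_, hrx⟩, ⟨_, hry⟩, ⟨_, hrz⟩] : Fin 3 → LinearMap.ker f) i = 0 := by
      rw [Fin.sum_univ_three]
      apply Subtype.ext
      funext i
      simp
      ring
    obtain ⟨k, A, Y, hY, hA⟩ := Module.Flat.isTrivialRelation_of_sum_smul_eq_zero hrel
    have hsol : ∀ j, ∃ p q s : R, A 0 j = z * p - y * q ∧ A 1 j = x * q - z * s ∧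
        A 2 j = y * s - x * p := by
      intro j
      have h1 := hA j
      rw [Fin.sum_univ_three] at h1
      simp only [Matrix.cons_val_zero, Matrix.cons_val_one, Matrix.cons_val] at h1
      obtain ⟨p, q, hpq⟩ := hxyz _ _ _ h1
      have h2 : y * (A 1 j - x * q) = z * (-(A 2 j + x * p)) := by
        rw [hpq] at h1
        linear_combination h1
      obtain ⟨s, hs⟩ := hyz _ _ h2
      refine ⟨p, q, -s, hpq, ?_, ?_⟩
      · linear_combination hs
      · apply mul_left_cancel₀ hz0
        rw [hs] at h2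
        linear_combination h2
    choose p q s h1 h2 h3 using hsol
    refine ⟨∑ j, s j • Y j, ∑ j, p j • Y j, ∑ j, q j • Y j, ?_, ?_, ?_⟩
    · have := hY 0
      simp only [Matrix.cons_val_zero] at this
      rw [this, Finset.smul_sum, Finset.smul_sum, ← Finset.sum_sub_distrib]
      refine Finset.sum_congr rfl (fun j _ => ?_)
      rw [h1 j, sub_smul, mul_smul, mul_smul]
    · have := hY 1
      simp only [Matrix.cons_val_one, Matrix.cons_val_zero] at this
      rw [this, Finset.smul_sum, Finset.smul_sum, ← Finset.sum_sub_distrib]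
      refine Finset.sum_congr rfl (fun j _ => ?_)
      rw [h2 j, sub_smul, mul_smul, mul_smul]
    · have := hY 2
      simp only [Matrix.cons_val] at this
      rw [this, Finset.smul_sum, Finset.smul_sum, ← Finset.sum_sub_distrib]
      refine Finset.sum_congr rfl (fun j _ => ?_)
      rw [h3 j, sub_smul, mul_smul, mul_smul]
  obtain ⟨u₁, u₂, u₃, h1, h2, h3⟩ := key
  have h3' : ∀ i, y * (a i - (u₁ : Fin m → R) i) = x * (b i - (u₂ : Fin m → R) i) := by
    intro i
    have := congrFun (congrArg Subtype.val h3) i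
    simp at this
    linear_combination this
  have h4 : ∀ i, ∃ e, a i - (u₁ : Fin m → R) i = x * e := by
    intro i
    exact hxy _ _ (h3' i)
  choose e he using h4
  have h5 : f (a - u₁) = f (x • e) := by
    congr 1
    funext i
    simp [he i]
  rw [map_sub, map_smul, ha, show f (u₁ : Fin m → R) = 0 from u₁.2, sub_zero] at h5
  have h6 : x * w = x * (f e : R) := by
    have := congrArg Subtype.val h5
    simpa using this
  have h7 := mul_left_cancel₀ hx0 h6
  rw [h7]
  exact (f e).2

end Pool.Agent.H89.PdU
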