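import Mathlib
import Pool.Agent.H89.PdOneU

set_option autoImplicit false

/-!
Projective dimension of ideals through the short exact sequences
`0 → (I : c) → R × I → I + (c) → 0` (problem MP_1cfa24_ag).
-/

namespace Pool.Agent.H89.PdU

open CategoryTheory

universe u

variable {R : Type u} [CommRing R]

/-- `PdLT I n` : the ideal `I`, as a module, has projective dimension less than `n`. -/
def PdLT (I : Ideal R) (n : ℕ) : Prop :=
  HasProjectiveDimensionLT (ModuleCat.of R ↥I) n

theorem PdLT.mono {I : Ideal R} {n m : ℕ} (h : PdLT I n) (hnm : n ≤ m) : PdLT I m := by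
  unfold PdLT at *
  exact hasProjectiveDimensionLT_of_ge _ n m hnm

/-- transport along a linear equivalence -/
theorem hasLT_of_equiv {M N : Type u} [AddCommGroup M] [Module R M] [AddCommGroup N] [Module R N]
    (e : M ≃ₗ[R] N) (n : ℕ) (h : HasProjectiveDimensionLT (ModuleCat.of R M) n) :
    HasProjectiveDimensionLT (ModuleCat.of R N) n :=
  hasProjectiveDimensionLT_of_iso e.toModuleIso n

theorem pdLT_one_iff (I : Ideal R) : PdLT I 1 ↔ Module.Projective R ↥I := by
  unfold PdLT
  rw [← projective_iff_hasProjectiveDimensionLT_one, ← IsProjective.iff_projective]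

theorem PdLeOne.pdLT {I : Ideal R} (h : PdLeOne R I) : PdLT I 2 := by
  obtain ⟨m, f, hf, hp⟩ := h
  have hS := LinearMap.shortExact_shortComplexKer hf
  have h2 : Projective (ModuleCat.of R (Fin m → R)) := inferInstance
  refine (hS.hasProjectiveDimensionLT_X₃_iff 0 h2).2 ?_
  have h1 : Projective (ModuleCat.of R ↥(LinearMap.ker f)) :=
    (IsProjective.iff_projective (R := R) (P := ↥(LinearMap.ker f))).1 hp
  exact projective_iff_hasProjectiveDimensionLT_one.1 h1

theorem PdLT.pdLeOne {I : Ideal R} (hI : I.FG) (h : PdLT I 2) : PdLeOne R I := by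
  have hfin : Module.Finite R ↥I := Module.Finite.iff_fg.2 hI
  obtain ⟨m, f, hf⟩ := Module.Finite.exists_fin' R ↥I
  refine ⟨m, f, hf, ?_⟩
  have hS := LinearMap.shortExact_shortComplexKer hf
  have h2 : Projective (ModuleCat.of R (Fin m → R)) := inferInstance
  have h3 := (hS.hasProjectiveDimensionLT_X₃_iff 0 h2).1 h
  exact (IsProjective.iff_projective (R := R) (P := ↥(LinearMap.ker f))).2
    (projective_iff_hasProjectiveDimensionLT_one.2 h3)

theorem pdLT_top : PdLT (⊤ : Ideal R) 1 := by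
  rw [pdLT_one_iff]
  exact Module.Projective.of_equiv (Submodule.topEquiv (R := R) (M := R)).symm

/-- `R × I` -/
theorem prod_hasLT {I : Ideal R} {n : ℕ} (h : PdLT I (n + 1)) :
    HasProjectiveDimensionLT (ModuleCat.of R (R × ↥I)) (n + 1) := by
  have h1 : HasProjectiveDimensionLT (ModuleCat.of R R) (n + 1) := by
    have : Projective (ModuleCat.of R R) := inferInstance
    have h0 : HasProjectiveDimensionLT (ModuleCat.of R R) 1 :=
      projective_iff_hasProjectiveDimensionLT_one.1 this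
    exact hasProjectiveDimensionLT_of_ge _ 1 (n + 1) (by omega)
  have h2 : HasProjectiveDimensionLT (ModuleCat.of R ↥I) (n + 1) := h
  exact hasProjectiveDimensionLT_of_iso
    (ModuleCat.biprodIsoProd (ModuleCat.of R R) (ModuleCat.of R ↥I)) (n + 1)

theorem of_prod {I : Ideal R} {n : ℕ}
    (h : HasProjectiveDimensionLT (ModuleCat.of R (R × ↥I)) n) : PdLT I n := by
  let r : Retract (ModuleCat.of R ↥I) (ModuleCat.of R (R × ↥I)) :=
    { i := ModuleCat.ofHom (LinearMap.inr R R ↥I)
      r := ModuleCat.ofHom (LinearMap.snd R R ↥I)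
      retract := by
        ext x
        simp }
  exact r.hasProjectiveDimensionLT n

section seq

variable {I J C : Ideal R} {c : R}

/-- the map `R × I → I + (c)` -/
noncomputable def seqMap (I : Ideal R) (c : R) (J : Ideal R) (hJ : J = I ⊔ Ideal.span {c}) :
    (R × ↥I) →ₗ[R] ↥J :=
  LinearMap.codRestrict J
    ((LinearMap.toSpanSingleton R R c) ∘ₗ (LinearMap.fst R R ↥I) +
      I.subtype ∘ₗ (LinearMap.snd R R ↥I)) (by
    intro p
    rw [hJ]
    simp only [LinearMap.add_apply, LinearMap.comp_apply, LinearMap.toSpanSingleton_apply,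
      LinearMap.fst_apply, LinearMap.snd_apply, Submodule.subtype_apply, smul_eq_mul]
    exact Submodule.add_mem _
      (Submodule.mem_sup_right (Ideal.mul_mem_left _ _ (Ideal.mem_span_singleton_self c)))
      (Submodule.mem_sup_left p.2.2))

theorem seqMap_apply (hJ : J = I ⊔ Ideal.span {c}) (p : R × ↥I) :
    (seqMap I c J hJ p : R) = p.1 * c + (p.2 : R) := rfl

theorem seqMap_surjective (hJ : J = I ⊔ Ideal.span {c}) :
    Function.Surjective (seqMap I c J hJ) := by
  rintro ⟨x, hx⟩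
  rw [hJ] at hx
  obtain ⟨y, hy, z, hz, rfl⟩ := Submodule.mem_sup.1 hx
  obtain ⟨b, rfl⟩ := Ideal.mem_span_singleton'.1 hz
  refine ⟨(b, ⟨y, hy⟩), ?_⟩
  apply Subtype.ext
  rw [seqMap_apply]
  simp [add_comm]

/-- the kernel is the colon ideal -/
noncomputable def kerEquiv (hJ : J = I ⊔ Ideal.span {c}) (hC : ∀ r, r ∈ C ↔ r * c ∈ I) :
    ↥(LinearMap.ker (seqMap I c J hJ)) ≃ₗ[R] ↥C := by
  have hmem : ∀ p : R × ↥I, p ∈ LinearMap.ker (seqMap I c J hJ) ↔ p.1 * c + (p.2 : R) = 0 := by
    intro p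
    rw [LinearMap.mem_ker, ← seqMap_apply hJ]
    constructor
    · intro h; rw [h]; rfl
    · intro h; exact Subtype.ext h
  refine LinearEquiv.ofBijective
    (LinearMap.codRestrict C (LinearMap.fst R R ↥I ∘ₗ (LinearMap.ker (seqMap I c J hJ)).subtype)
      ?_) ⟨?_, ?_⟩
  · rintro ⟨p, hp⟩
    rw [hmem] at hp
    rw [hC]
    have : p.1 * c = -(p.2 : R) := by linear_combination hp
    change p.1 * c ∈ I
    rw [this]
    exact I.neg_mem p.2.2
  · rintro ⟨p, hp⟩ ⟨q, hq⟩ hpq
    rw [hmem] at hp hq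
    have h1 : p.1 = q.1 := congrArg Subtype.val hpq
    have h2 : (p.2 : R) = q.2 := by
      rw [h1] at hp
      linear_combination hp - hq
    apply Subtype.ext
    exact Prod.ext h1 (Subtype.ext h2)
  · rintro ⟨r, hr⟩
    have hr' := (hC r).1 hr
    refine ⟨⟨(r, ⟨-(r * c), I.neg_mem hr'⟩), ?_⟩, ?_⟩
    · rw [hmem]
      simp
    · rfl

/-- the short exact sequence -/
theorem seq_exact (hJ : J = I ⊔ Ideal.span {c}) :
    (seqMap I c J hJ).shortComplexKer.ShortExact :=
  LinearMap.shortExact_shortComplexKer (seqMap_surjective hJ)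

theorem pdLT_of_colon (hJ : J = I ⊔ Ideal.span {c}) (hC : ∀ r, r ∈ C ↔ r * c ∈ I) {n : ℕ}
    (h1 : PdLT C n) (h3 : PdLT J n) : PdLT I n := by
  refine of_prod ?_
  refine (seq_exact hJ).hasProjectiveDimensionLT_X₂ n ?_ h3
  exact hasLT_of_equiv (kerEquiv hJ hC).symm n h1

theorem pdLT_sum (hJ : J = I ⊔ Ideal.span {c}) (hC : ∀ r, r ∈ C ↔ r * c ∈ I) {n : ℕ}
    (h1 : PdLT C n) (h2 : PdLT I (n + 1)) : PdLT J (n + 1) := by
  refine (seq_exact hJ).hasProjectiveDimensionLT_X₃ n ?_ (prod_hasLT h2)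
  exact hasLT_of_equiv (kerEquiv hJ hC).symm n h1

theorem pdLT_colon (hJ : J = I ⊔ Ideal.span {c}) (hC : ∀ r, r ∈ C ↔ r * c ∈ I) {n : ℕ}
    (h2 : PdLT I (n + 1)) (h3 : PdLT J (n + 2)) : PdLT C (n + 1) := by
  have := (seq_exact hJ).hasProjectiveDimensionLT_X₁ (n + 1) (prod_hasLT h2) h3
  exact hasLT_of_equiv (kerEquiv hJ hC) (n + 1) this

end seq

end Pool.Agent.H89.PdU
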