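import Mathlib
import Pool.Agent.H89.PdCat

set_option autoImplicit false

/-!
The ideal `Q = (Y^5, X Y^4, X^3 Y^3, X^4 Y + Z X^3 Y^2, X^5)` attached to three elements
`X`, `Y`, `Z` of a domain: its powers have projective dimension `1, 2, 1, 1, 1, …`
(problem MP_1cfa24_ag).
-/

namespace Pool.Agent.H89.PdU

universe u

variable {R : Type u} [CommRing R]

/-- The hypotheses on the three elements. -/
structure Good (X Y Z : R) : Prop where
  ne : X ≠ 0
  cop : ∀ (n m : ℕ) (b : R), X ^ n ∣ Y ^ m * b → X ^ n ∣ b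
  prime : Prime Y
  ndvd : ¬ Y ∣ X
  zreg : ∀ c : R, Z * c ∈ Ideal.span {X, Y} → c ∈ Ideal.span {X, Y}
  zY : ∀ a : R, Z ^ 2 ∣ Y * a → Z ^ 2 ∣ a
  zne : Z ≠ 0
  proper : (1 : R) ∉ Ideal.span {X, Y, Z ^ 2}

variable {X Y Z : R}

theorem YYpow_dvd (h : Good X Y Z) [IsDomain R] {b c : R} {n : ℕ} (hc : ¬ Y ∣ c)
    (h1 : Y ^ n ∣ c * b) : Y ^ n ∣ b :=
  h.prime.pow_dvd_of_dvd_mul_left n hc h1

theorem YY_not_dvd_XXpow (h : Good X Y Z) (n : ℕ) : ¬ Y ∣ X ^ n := by
  intro h1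
  exact h.ndvd (h.prime.dvd_of_dvd_pow h1)

theorem YY_not_dvd_lin (h : Good X Y Z) : ¬ Y ∣ X + Z * Y := by
  intro h1
  exact h.ndvd ((dvd_add_left (Dvd.intro_left _ rfl)).1 h1)

/-- the ideal `(X, Y)` -/
def M (X Y : R) : Ideal R := Ideal.span {X, Y}

theorem XX_mem : X ∈ M X Y := Ideal.subset_span (by simp)
theorem YY_mem : Y ∈ M X Y := Ideal.subset_span (by simp)

theorem M_succ (n : ℕ) :
    M X Y ^ (n + 1) = Ideal.span {Y ^ (n + 1)} ⊔ Ideal.span {X} * M X Y ^ n := by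
  apply le_antisymm
  · induction n with
    | zero =>
      rw [pow_zero, zero_add, pow_one, pow_one, Ideal.one_eq_top, Ideal.mul_top, M,
        Ideal.span_insert, sup_comm]
    | succ n ih =>
      have hM : M X Y = Ideal.span {X} ⊔ Ideal.span {Y} := by
        rw [M, Ideal.span_insert]
      rw [pow_succ (M X Y) (n + 1)]
      calc M X Y ^ (n + 1) * M X Y = M X Y ^ (n + 1) * (Ideal.span {X} ⊔ Ideal.span {Y}) := by
            rw [← hM]
        _ = M X Y ^ (n + 1) * Ideal.span {X} ⊔ M X Y ^ (n + 1) * Ideal.span {Y} :=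
              Ideal.mul_sup _ _ _
        _ ≤ _ := ?_
      apply sup_le
      · rw [mul_comm]
        exact le_sup_right
      · calc M X Y ^ (n + 1) * Ideal.span {Y}
            ≤ (Ideal.span {Y ^ (n + 1)} ⊔ Ideal.span {X} * M X Y ^ n) * Ideal.span {Y} :=
              Ideal.mul_mono_left ih
          _ ≤ _ := by
              rw [Ideal.sup_mul]
              apply sup_le
              · rw [Ideal.span_singleton_mul_span_singleton, ← pow_succ]
                exact le_sup_left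
              · rw [mul_assoc, pow_succ (M X Y) n]
                refine le_sup_of_le_right (Ideal.mul_mono_right (Ideal.mul_mono_right ?_))
                rw [Ideal.span_singleton_le_iff_mem]
                exact YY_mem
  · apply sup_le
    · rw [Ideal.span_singleton_le_iff_mem]
      exact Ideal.pow_mem_pow YY_mem _
    · rw [pow_succ']
      apply Ideal.mul_mono_left
      rw [Ideal.span_singleton_le_iff_mem]
      exact XX_mem

theorem pd_M [IsDomain R] (h : Good X Y Z) (n : ℕ) : PdLeOne R (M X Y ^ n) := by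
  induction n with
  | zero => rw [pow_zero, Ideal.one_eq_top]; exact pdLeOne_top _
  | succ n ih =>
    refine pdLeOne_step (g := Y ^ (n + 1)) (h := X) ?_ h.ne ?_ (M_succ n) ih
    · rw [pow_succ]
      exact Ideal.mul_mem_right _ _ (Ideal.pow_mem_pow YY_mem _)
    · intro b hb
      have := h.cop 1 _ _ (by rw [pow_one]; exact hb)
      rwa [pow_one] at this

/-- a criterion for `M X Y ^ n ≤ J` -/
theorem M_pow_le (n : ℕ) : ∀ (J : Ideal R), (∀ i j, i + j = n → X ^ i * Y ^ j ∈ J) →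
    M X Y ^ n ≤ J := by
  induction n with
  | zero =>
    intro J hJ
    have := hJ 0 0 rfl
    rw [pow_zero, pow_zero, mul_one] at this
    rw [(Ideal.eq_top_iff_one J).2 this]
    exact le_top
  | succ n ih =>
    intro J hJ
    rw [M_succ]
    apply sup_le
    · rw [Ideal.span_singleton_le_iff_mem]
      have := hJ 0 (n + 1) (by simp)
      rwa [pow_zero, one_mul] at this
    · have h1 : M X Y ^ n ≤ Submodule.comap (LinearMap.mulLeft R X) J := by
        apply ih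
        intro i j hij
        have := hJ (i + 1) j (by omega)
        rw [Submodule.mem_comap, LinearMap.mulLeft_apply]
        rwa [pow_succ', mul_assoc] at this
      intro p hp
      obtain ⟨q, hq, rfl⟩ := Ideal.mem_span_singleton_mul.1 hp
      exact h1 hq

/-- the polynomial `f = X^4 Y + Z X^3 Y^2` -/
def ff (X Y Z : R) : R := X ^ 4 * Y + Z * (X ^ 3 * Y ^ 2)

/-- the counterexample -/
def Q (X Y Z : R) : Ideal R :=
  Ideal.span {Y ^ 5, X * Y ^ 4, X ^ 3 * Y ^ 3, ff X Y Z, X ^ 5}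

theorem g1 : Y ^ 5 ∈ Q X Y Z := Ideal.subset_span (by simp)
theorem g2 : X * Y ^ 4 ∈ Q X Y Z := Ideal.subset_span (by simp)
theorem g3 : X ^ 3 * Y ^ 3 ∈ Q X Y Z := Ideal.subset_span (by simp)
theorem g4 : ff X Y Z ∈ Q X Y Z := Ideal.subset_span (by simp)
theorem g5 : X ^ 5 ∈ Q X Y Z := Ideal.subset_span (by simp)

theorem pd_Q [IsDomain R] (h : Good X Y Z) : PdLeOne R (Q X Y Z) := by
  have h1 : PdLeOne R (Ideal.span {X + Z * Y, Y ^ 2}) := by
    refine pdLeOne_step (I' := ⊤) (g := X + Z * Y) (h := Y ^ 2) trivial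
      (pow_ne_zero _ h.prime.ne_zero) (fun b hb => YYpow_dvd h (YY_not_dvd_lin h) hb) ?_
      (pdLeOne_top _)
    rw [Ideal.mul_top, Ideal.span_insert]
  have h2 : PdLeOne R (Ideal.span {X ^ 2, Y * (X + Z * Y), Y ^ 3}) := by
    refine pdLeOne_step (g := X ^ 2) (h := Y) ?_ h.prime.ne_zero ?_ ?_ h1
    · rw [Ideal.mem_span_pair]
      exact ⟨X - Z * Y, Z ^ 2, by ring⟩
    · intro b hb
      have := YYpow_dvd h (n := 1) (YY_not_dvd_XXpow h 2) (by rw [pow_one]; exact hb)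
      rwa [pow_one] at this
    · rw [Ideal.span_mul_span', Set.singleton_mul, Set.image_insert_eq, Set.image_singleton,
        Ideal.span_insert, ← pow_succ']
  have h3 : PdLeOne R (Ideal.span {Y ^ 4, X ^ 2 * X ^ 2, X ^ 2 * (Y * (X + Z * Y)),
      X ^ 2 * Y ^ 3}) := by
    refine pdLeOne_step (g := Y ^ 4) (h := X ^ 2) ?_ (pow_ne_zero _ h.ne) ?_ ?_ h2
    · rw [show Y ^ 4 = Y ^ 3 * Y by ring]
      exact Ideal.mul_mem_right _ _ (Ideal.subset_span
        (Set.mem_insert_of_mem _ (Set.mem_insert_of_mem _ rfl)))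
    · intro b hb
      exact h.cop _ _ _ hb
    · rw [Ideal.span_mul_span', Set.singleton_mul, Set.image_insert_eq, Set.image_insert_eq,
        Set.image_singleton, Ideal.span_insert]
  have h4 : PdLeOne R (Ideal.span {Y ^ 5, X * Y ^ 4, X * (X ^ 2 * X ^ 2),
      X * (X ^ 2 * (Y * (X + Z * Y))), X * (X ^ 2 * Y ^ 3)}) := by
    refine pdLeOne_step (g := Y ^ 5) (h := X) ?_ h.ne ?_ ?_ h3
    · rw [show Y ^ 5 = Y ^ 4 * Y by ring]
      exact Ideal.mul_mem_right _ _ (Ideal.subset_span (Set.mem_insert _ _))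
    · intro b hb
      have := h.cop 1 _ _ (by rw [pow_one]; exact hb)
      rwa [pow_one] at this
    · rw [Ideal.span_mul_span', Set.singleton_mul, Set.image_insert_eq, Set.image_insert_eq,
        Set.image_insert_eq, Set.image_singleton, Ideal.span_insert]
  rw [show X * (X ^ 2 * X ^ 2) = X ^ 5 by ring,
    show X * (X ^ 2 * (Y * (X + Z * Y))) = ff X Y Z by rw [ff]; ring,
    show X * (X ^ 2 * Y ^ 3) = X ^ 3 * Y ^ 3 by ring] at h4
  convert h4 using 1
  rw [Q]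
  congr 1
  ext p
  simp only [Set.mem_insert_iff, Set.mem_singleton_iff]
  tauto

theorem Q_le : Q X Y Z ≤ M X Y ^ 5 := by
  rw [Q, Ideal.span_le]
  have hm : ∀ i j, i + j = 5 → X ^ i * Y ^ j ∈ M X Y ^ 5 := by
    intro i j hij
    rw [← hij, pow_add]
    exact Ideal.mul_mem_mul (Ideal.pow_mem_pow XX_mem _) (Ideal.pow_mem_pow YY_mem _)
  rintro p (rfl | rfl | rfl | rfl | rfl)
  · simpa using hm 0 5 rfl
  · simpa using hm 1 4 rfl
  · have : X ^ 3 * Y ^ 3 = (X ^ 3 * Y ^ 2) * Y := by ring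
    rw [this]
    exact Ideal.mul_mem_right _ _ (hm 3 2 rfl)
  · rw [ff]
    refine Ideal.add_mem _ ?_ (Ideal.mul_mem_left _ _ (hm 3 2 rfl))
    simpa using hm 4 1 rfl
  · simpa using hm 5 0 rfl

theorem Q3 : Q X Y Z ^ 3 = M X Y ^ 15 := by
  apply le_antisymm
  · calc Q X Y Z ^ 3 ≤ (M X Y ^ 5) ^ 3 := Ideal.pow_right_mono Q_le 3
      _ = M X Y ^ 15 := by rw [← pow_mul]
  · have h3 : ∀ a b c, a ∈ Q X Y Z → b ∈ Q X Y Z → c ∈ Q X Y Z → a * b * c ∈ Q X Y Z ^ 3 := by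
      intro a b c ha hb hc
      rw [pow_succ, pow_two]
      exact Ideal.mul_mem_mul (Ideal.mul_mem_mul ha hb) hc
    have m0 : Y ^ 15 ∈ Q X Y Z ^ 3 := by
      rw [show Y ^ 15 = Y ^ 5 * Y ^ 5 * Y ^ 5 by ring]; exact h3 _ _ _ g1 g1 g1
    have m1 : X * Y ^ 14 ∈ Q X Y Z ^ 3 := by
      rw [show X * Y ^ 14 = X * Y ^ 4 * Y ^ 5 * Y ^ 5 by ring]; exact h3 _ _ _ g2 g1 g1
    have m2 : X ^ 2 * Y ^ 13 ∈ Q X Y Z ^ 3 := by
      rw [show X ^ 2 * Y ^ 13 = X * Y ^ 4 * (X * Y ^ 4) * Y ^ 5 by ring]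
      exact h3 _ _ _ g2 g2 g1
    have m3 : X ^ 3 * Y ^ 12 ∈ Q X Y Z ^ 3 := by
      rw [show X ^ 3 * Y ^ 12 = X * Y ^ 4 * (X * Y ^ 4) * (X * Y ^ 4) by ring]
      exact h3 _ _ _ g2 g2 g2
    have m4 : X ^ 4 * Y ^ 11 ∈ Q X Y Z ^ 3 := by
      rw [show X ^ 4 * Y ^ 11 = Y ^ 5 * Y ^ 5 * ff X Y Z - Z * (X ^ 3 * Y ^ 12) by rw [ff]; ring]
      exact Ideal.sub_mem _ (h3 _ _ _ g1 g1 g4) (Ideal.mul_mem_left _ _ m3)
    have m5 : X ^ 5 * Y ^ 10 ∈ Q X Y Z ^ 3 := by
      rw [show X ^ 5 * Y ^ 10 = X ^ 5 * Y ^ 5 * Y ^ 5 by ring]; exact h3 _ _ _ g5 g1 g1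
    have m6 : X ^ 6 * Y ^ 9 ∈ Q X Y Z ^ 3 := by
      rw [show X ^ 6 * Y ^ 9 = X ^ 5 * (X * Y ^ 4) * Y ^ 5 by ring]
      exact h3 _ _ _ g5 g2 g1
    have m7 : X ^ 7 * Y ^ 8 ∈ Q X Y Z ^ 3 := by
      rw [show X ^ 7 * Y ^ 8 = X ^ 5 * (X * Y ^ 4) * (X * Y ^ 4) by ring]
      exact h3 _ _ _ g5 g2 g2
    have m8 : X ^ 8 * Y ^ 7 ∈ Q X Y Z ^ 3 := by
      rw [show X ^ 8 * Y ^ 7 = ff X Y Z * ff X Y Z * Y ^ 5 - (2 * Z) * (X ^ 7 * Y ^ 8)
        - Z ^ 2 * (X ^ 6 * Y ^ 9) by rw [ff]; ring]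
      exact Ideal.sub_mem _ (Ideal.sub_mem _ (h3 _ _ _ g4 g4 g1) (Ideal.mul_mem_left _ _ m7))
        (Ideal.mul_mem_left _ _ m6)
    have m9 : X ^ 9 * Y ^ 6 ∈ Q X Y Z ^ 3 := by
      rw [show X ^ 9 * Y ^ 6 = ff X Y Z * ff X Y Z * (X * Y ^ 4) - (2 * Z) * (X ^ 8 * Y ^ 7)
        - Z ^ 2 * (X ^ 7 * Y ^ 8) by rw [ff]; ring]
      exact Ideal.sub_mem _ (Ideal.sub_mem _ (h3 _ _ _ g4 g4 g2) (Ideal.mul_mem_left _ _ m8))
        (Ideal.mul_mem_left _ _ m7)
    have m10 : X ^ 10 * Y ^ 5 ∈ Q X Y Z ^ 3 := by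
      rw [show X ^ 10 * Y ^ 5 = X ^ 5 * X ^ 5 * Y ^ 5 by ring]; exact h3 _ _ _ g5 g5 g1
    have m11 : X ^ 11 * Y ^ 4 ∈ Q X Y Z ^ 3 := by
      rw [show X ^ 11 * Y ^ 4 = X ^ 5 * X ^ 5 * (X * Y ^ 4) by ring]
      exact h3 _ _ _ g5 g5 g2
    have m12 : X ^ 12 * Y ^ 3 ∈ Q X Y Z ^ 3 := by
      rw [show X ^ 12 * Y ^ 3 = ff X Y Z * ff X Y Z * ff X Y Z - (3 * Z) * (X ^ 11 * Y ^ 4)
        - (3 * Z ^ 2) * (X ^ 10 * Y ^ 5) - Z ^ 3 * (X ^ 9 * Y ^ 6) by rw [ff]; ring]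
      exact Ideal.sub_mem _ (Ideal.sub_mem _ (Ideal.sub_mem _ (h3 _ _ _ g4 g4 g4)
        (Ideal.mul_mem_left _ _ m11)) (Ideal.mul_mem_left _ _ m10)) (Ideal.mul_mem_left _ _ m9)
    have m13 : X ^ 13 * Y ^ 2 ∈ Q X Y Z ^ 3 := by
      rw [show X ^ 13 * Y ^ 2 = ff X Y Z * ff X Y Z * X ^ 5 - (2 * Z) * (X ^ 12 * Y ^ 3)
        - Z ^ 2 * (X ^ 11 * Y ^ 4) by rw [ff]; ring]
      exact Ideal.sub_mem _ (Ideal.sub_mem _ (h3 _ _ _ g4 g4 g5) (Ideal.mul_mem_left _ _ m12))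
        (Ideal.mul_mem_left _ _ m11)
    have m14 : X ^ 14 * Y ∈ Q X Y Z ^ 3 := by
      rw [show X ^ 14 * Y = ff X Y Z * X ^ 5 * X ^ 5 - Z * (X ^ 13 * Y ^ 2) by rw [ff]; ring]
      exact Ideal.sub_mem _ (h3 _ _ _ g4 g5 g5) (Ideal.mul_mem_left _ _ m13)
    have m15 : X ^ 15 ∈ Q X Y Z ^ 3 := by
      rw [show X ^ 15 = X ^ 5 * X ^ 5 * X ^ 5 by ring]; exact h3 _ _ _ g5 g5 g5
    apply M_pow_le
    intro i j hij
    have hi : i ≤ 15 := by omega
    obtain rfl : j = 15 - i := by omega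
    interval_cases i
    · simpa using m0
    · simpa using m1
    · simpa using m2
    · simpa using m3
    · simpa using m4
    · simpa using m5
    · simpa using m6
    · simpa using m7
    · simpa using m8
    · simpa using m9
    · simpa using m10
    · simpa using m11
    · simpa using m12
    · simpa using m13
    · simpa using m14
    · simpa using m15

theorem Q_mul (n : ℕ) (hn : 4 ≤ n) : Q X Y Z * M X Y ^ n = M X Y ^ (n + 5) := by
  apply le_antisymm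
  · rw [add_comm, pow_add]
    exact Ideal.mul_mono_left Q_le
  · apply M_pow_le
    intro i j hij
    have hm : ∀ i j, i + j = n → X ^ i * Y ^ j ∈ M X Y ^ n := by
      intro i j hij
      rw [← hij, pow_add]
      exact Ideal.mul_mem_mul (Ideal.pow_mem_pow XX_mem _) (Ideal.pow_mem_pow YY_mem _)
    by_cases h5 : 5 ≤ i
    · obtain ⟨i', rfl⟩ := Nat.exists_eq_add_of_le h5
      rw [pow_add, mul_assoc]
      exact Ideal.mul_mem_mul g5 (hm _ _ (by omega))
    · have h6 : 5 ≤ j := by omega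
      obtain ⟨j', rfl⟩ := Nat.exists_eq_add_of_le h6
      rw [pow_add, mul_left_comm]
      exact Ideal.mul_mem_mul g1 (hm _ _ (by omega))

theorem Q_pow (t : ℕ) (ht : 3 ≤ t) : Q X Y Z ^ t = M X Y ^ (5 * t) := by
  induction t, ht using Nat.le_induction with
  | base => exact Q3
  | succ t ht ih =>
    rw [pow_succ', ih, Q_mul _ (by omega)]
    congr 1

theorem M_ne_top (h : Good X Y Z) : M X Y ≠ ⊤ := by
  intro h1
  apply h.proper
  have h2 : (1 : R) ∈ M X Y := by rw [h1]; trivial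
  refine Ideal.span_mono ?_ h2
  intro p hp
  rcases hp with rfl | rfl
  · simp
  · simp

theorem not_proj [IsDomain R] (h : Good X Y Z) {I : Ideal R} {a b : ℕ} (hI : I ≤ M X Y)
    (ha : X ^ a ∈ I) (hb : Y ^ b ∈ I) : ¬ Module.Projective R I := by
  refine not_projective ha hb (pow_ne_zero _ h.ne) (fun v hv => h.cop _ _ _ hv) ?_
  intro h1
  apply M_ne_top h
  rw [eq_top_iff, ← h1]
  exact hI

/-! ### quasi-regularity -/

theorem quasi [IsDomain R] (h : Good X Y Z) (n : ℕ) : ∀ e : ℕ → R,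
    ∑ i ∈ Finset.range (n + 1), e i * (X ^ i * Y ^ (n - i)) = 0 →
    ∀ i, i ≤ n → e i ∈ M X Y := by
  induction n with
  | zero =>
    intro e he i hi
    obtain rfl : i = 0 := by omega
    rw [Finset.sum_range_one] at he
    simp only [pow_zero, Nat.sub_self, mul_one] at he
    rw [he]
    exact Ideal.zero_mem _
  | succ n ih =>
    intro e he
    rw [Finset.sum_range_succ'] at he
    have h1 : ∑ i ∈ Finset.range (n + 1), e (i + 1) * (X ^ (i + 1) * Y ^ (n + 1 - (i + 1))) =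
        X * ∑ i ∈ Finset.range (n + 1), e (i + 1) * (X ^ i * Y ^ (n - i)) := by
      rw [Finset.mul_sum]
      refine Finset.sum_congr rfl (fun i _ => ?_)
      rw [Nat.add_sub_add_right]
      ring
    rw [h1, pow_zero, one_mul, Nat.sub_zero] at he
    have h2 : X ^ 1 ∣ Y ^ (n + 1) * e 0 := by
      rw [pow_one]
      exact ⟨-∑ i ∈ Finset.range (n + 1), e (i + 1) * (X ^ i * Y ^ (n - i)), by
        linear_combination he⟩
    obtain ⟨f, hf⟩ := h.cop _ _ _ h2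
    rw [pow_one] at hf
    have h3 : ∑ i ∈ Finset.range (n + 1),
        (e (i + 1) + if i = 0 then f * Y else 0) * (X ^ i * Y ^ (n - i)) = 0 := by
      apply mul_left_cancel₀ h.ne
      have h4 : ∑ i ∈ Finset.range (n + 1),
          (e (i + 1) + if i = 0 then f * Y else 0) * (X ^ i * Y ^ (n - i)) =
          ∑ i ∈ Finset.range (n + 1), e (i + 1) * (X ^ i * Y ^ (n - i)) + f * Y ^ (n + 1) := by
        rw [Finset.sum_congr rfl (fun i _ => add_mul _ _ _), Finset.sum_add_distrib]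
        congr 1
        rw [Finset.sum_eq_single 0]
        · rw [if_pos rfl, pow_zero, Nat.sub_zero]; ring
        · intro i _ hi
          rw [if_neg hi, zero_mul]
        · intro h0
          exact absurd (Finset.mem_range.2 (Nat.succ_pos n)) h0
      rw [h4, mul_zero]
      rw [hf] at he
      linear_combination he
    have h5 := ih _ h3
    intro i hi
    rcases i with _ | i
    · rw [hf]
      exact Ideal.mul_mem_right _ _ XX_mem
    · have h6 := h5 i (by omega)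
      by_cases hi0 : i = 0
      · rw [if_pos hi0] at h6
        have h7 : e (i + 1) = (e (i + 1) + f * Y) - f * Y := by ring
        rw [h7]
        exact Ideal.sub_mem _ h6 (Ideal.mul_mem_left _ _ YY_mem)
      · rwa [if_neg hi0, add_zero] at h6

/-- The monomials of degree ten. -/
def mon (X Y : R) (i : ℕ) : R := X ^ i * Y ^ (10 - i)

/-- The ideal of all combinations `∑ c i * mon i` with `∑ l i * c i ∈ K`. -/
def NN (X Y : R) (l : ℕ → R) (K : Ideal R) : Ideal R where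
  carrier := {p | ∃ c : ℕ → R, p = ∑ i ∈ Finset.range 11, c i * mon X Y i ∧
    ∑ i ∈ Finset.range 11, l i * c i ∈ K}
  add_mem' := by
    rintro p q ⟨c, hp, hc⟩ ⟨d, hq, hd⟩
    refine ⟨fun i => c i + d i, ?_, ?_⟩
    · rw [hp, hq, ← Finset.sum_add_distrib]
      exact Finset.sum_congr rfl (fun i _ => by ring)
    · rw [Finset.sum_congr rfl (fun i _ => mul_add (l i) (c i) (d i)), Finset.sum_add_distrib]
      exact Ideal.add_mem _ hc hd
  zero_mem' := ⟨fun _ => 0, by simp, by simp⟩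
  smul_mem' := by
    rintro r p ⟨c, hp, hc⟩
    refine ⟨fun i => r * c i, ?_, ?_⟩
    · rw [hp, smul_eq_mul, Finset.mul_sum]
      exact Finset.sum_congr rfl (fun i _ => by ring)
    · rw [Finset.sum_congr rfl (fun i _ => mul_left_comm (l i) r (c i)), ← Finset.mul_sum]
      exact Ideal.mul_mem_left _ _ hc

theorem two_mem {l : ℕ → R} {K : Ideal R} (j k : ℕ) (r s : R) (hj : j ≤ 10) (hk : k ≤ 10)
    (h : l j * r + l k * s ∈ K) : r * mon X Y j + s * mon X Y k ∈ NN X Y l K := by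
  refine ⟨fun i => (if i = j then r else 0) + (if i = k then s else 0), ?_, ?_⟩
  · rw [Finset.sum_congr rfl (fun i _ => add_mul _ _ _), Finset.sum_add_distrib,
      Finset.sum_eq_single j, Finset.sum_eq_single k, if_pos rfl, if_pos rfl]
    · intro i _ hi
      rw [if_neg hi, zero_mul]
    · intro h0
      exact absurd (Finset.mem_range.2 (by omega)) h0
    · intro i _ hi
      rw [if_neg hi, zero_mul]
    · intro h0
      exact absurd (Finset.mem_range.2 (by omega)) h0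
  · rw [Finset.sum_congr rfl (fun i _ => mul_add _ _ _), Finset.sum_add_distrib,
      Finset.sum_eq_single j, Finset.sum_eq_single k, if_pos rfl, if_pos rfl]
    · exact h
    · intro i _ hi
      rw [if_neg hi, mul_zero]
    · intro h0
      exact absurd (Finset.mem_range.2 (by omega)) h0
    · intro i _ hi
      rw [if_neg hi, mul_zero]
    · intro h0
      exact absurd (Finset.mem_range.2 (by omega)) h0

theorem one_mem {l : ℕ → R} {K : Ideal R} (j : ℕ) (r : R) (hj : j ≤ 10)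
    (h : l j * r ∈ K) : r * mon X Y j ∈ NN X Y l K := by
  have := two_mem (X := X) (Y := Y) (l := l) (K := K) j j r 0 hj hj (by simpa using h)
  simpa using this

theorem of_mem [IsDomain R] (h : Good X Y Z) {l : ℕ → R} {K : Ideal R} (hK : M X Y ≤ K) (j : ℕ)
    (r : R) (hj : j ≤ 10) (hm : r * mon X Y j ∈ NN X Y l K) : l j * r ∈ K := by
  obtain ⟨c, h1, h2⟩ := hm
  have h3 : ∑ i ∈ Finset.range (10 + 1), (c i - if i = j then r else 0) *
      (X ^ i * Y ^ (10 - i)) = 0 := by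
    rw [Finset.sum_congr rfl (fun i _ => sub_mul _ _ _), Finset.sum_sub_distrib]
    rw [Finset.sum_eq_single (s := Finset.range (10 + 1))
      (f := fun i => (if i = j then r else 0) * (X ^ i * Y ^ (10 - i))) j, if_pos rfl]
    · change ∑ i ∈ Finset.range 11, c i * mon X Y i - r * mon X Y j = 0
      rw [h1, sub_self]
    · intro i _ hi
      rw [if_neg hi, zero_mul]
    · intro h0
      exact absurd (Finset.mem_range.2 (by omega)) h0
  have h4 := quasi h 10 _ h3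
  have h5 : ∑ i ∈ Finset.range 11, l i * (c i - if i = j then r else 0) ∈ K := by
    refine Ideal.sum_mem _ (fun i hi => ?_)
    exact Ideal.mul_mem_left _ _ (hK (h4 i (by have := Finset.mem_range.1 hi; omega)))
  have h6 : ∑ i ∈ Finset.range 11, l i * (c i - if i = j then r else 0) =
      ∑ i ∈ Finset.range 11, l i * c i - l j * r := by
    rw [Finset.sum_congr rfl (fun i _ => mul_sub _ _ _), Finset.sum_sub_distrib]
    congr 1
    rw [Finset.sum_eq_single j, if_pos rfl]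
    · intro i _ hi
      rw [if_neg hi, mul_zero]
    · intro h0
      exact absurd (Finset.mem_range.2 (by omega)) h0
  rw [h6] at h5
  have h7 := Ideal.sub_mem _ h2 h5
  rwa [sub_sub_cancel] at h7

theorem Q2_le (N : Ideal R)
    (k11 : Y ^ 5 * Y ^ 5 ∈ N)
    (k12 : Y ^ 5 * (X * Y ^ 4) ∈ N)
    (k13 : Y ^ 5 * (X ^ 3 * Y ^ 3) ∈ N)
    (k14 : Y ^ 5 * ff X Y Z ∈ N)
    (k15 : Y ^ 5 * X ^ 5 ∈ N)
    (k22 : X * Y ^ 4 * (X * Y ^ 4) ∈ N)
    (k23 : X * Y ^ 4 * (X ^ 3 * Y ^ 3) ∈ N)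
    (k24 : X * Y ^ 4 * ff X Y Z ∈ N)
    (k25 : X * Y ^ 4 * X ^ 5 ∈ N)
    (k33 : X ^ 3 * Y ^ 3 * (X ^ 3 * Y ^ 3) ∈ N)
    (k34 : X ^ 3 * Y ^ 3 * ff X Y Z ∈ N)
    (k35 : X ^ 3 * Y ^ 3 * X ^ 5 ∈ N)
    (k44 : ff X Y Z * ff X Y Z ∈ N)
    (k45 : ff X Y Z * X ^ 5 ∈ N)
    (k55 : X ^ 5 * X ^ 5 ∈ N) : Q X Y Z ^ 2 ≤ N := by
  have hc : ∀ {a b : R}, a * b ∈ N → b * a ∈ N := fun {a b} h => by rwa [mul_comm]
  have key : ∀ a b : R,
      (a = Y ^ 5 ∨ a = X * Y ^ 4 ∨ a = X ^ 3 * Y ^ 3 ∨ a = ff X Y Z ∨ a = X ^ 5) →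
      (b = Y ^ 5 ∨ b = X * Y ^ 4 ∨ b = X ^ 3 * Y ^ 3 ∨ b = ff X Y Z ∨ b = X ^ 5) →
      a * b ∈ N := by
    rintro a b (rfl | rfl | rfl | rfl | rfl) (rfl | rfl | rfl | rfl | rfl)
    · exact k11
    · exact k12
    · exact k13
    · exact k14
    · exact k15
    · exact hc k12
    · exact k22
    · exact k23
    · exact k24
    · exact k25
    · exact hc k13
    · exact hc k23
    · exact k33
    · exact k34
    · exact k35
    · exact hc k14
    · exact hc k24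
    · exact hc k34
    · exact k44
    · exact k45
    · exact hc k15
    · exact hc k25
    · exact hc k35
    · exact hc k45
    · exact k55
  rw [pow_two, Q, Ideal.span_mul_span', Ideal.span_le]
  intro p hp
  obtain ⟨a, ha, b, hb, hab⟩ := Set.mem_mul.1 hp
  rw [← hab]
  simp only [Set.mem_insert_iff, Set.mem_singleton_iff] at ha hb
  exact key a b ha hb

/-- the ideal `(X, Y, Z^2)` -/
def KZ (X Y Z : R) : Ideal R := Ideal.span {X, Y, Z ^ 2}

/-- first functional -/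
def l1 (Z : R) (i : ℕ) : R := if i = 3 then 1 else if i = 4 then -Z else 0

/-- second functional -/
def l2 (Z : R) (i : ℕ) : R :=
  if i = 7 then 1 else if i = 8 then -(2 * Z) else if i = 9 then 2 * Z ^ 2 else 0

theorem Q2_le_N1 : Q X Y Z ^ 2 ≤ NN X Y (l1 Z) (KZ X Y Z) := by
  have hY : Y ∈ KZ X Y Z := Ideal.subset_span (by simp)
  have hZ : Z ^ 2 ∈ KZ X Y Z := Ideal.subset_span (by simp)
  have h0 : ∀ r : R, ∀ i, i ≤ 10 → i ≠ 3 → i ≠ 4 →
      r * mon X Y i ∈ NN X Y (l1 Z) (KZ X Y Z) := by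
    intro r i hi h3 h4
    refine one_mem i r hi ?_
    rw [l1, if_neg h3, if_neg h4, zero_mul]
    exact Ideal.zero_mem _
  apply Q2_le
  · have := h0 1 0 (by omega) (by omega) (by omega)
    rw [show Y ^ 5 * Y ^ 5 = 1 * mon X Y 0 by rw [mon]; ring]
    exact this
  · have := h0 1 1 (by omega) (by omega) (by omega)
    rw [show Y ^ 5 * (X * Y ^ 4) = 1 * mon X Y 1 by rw [mon]; ring]
    exact this
  · rw [show Y ^ 5 * (X ^ 3 * Y ^ 3) = Y * mon X Y 3 by rw [mon]; ring]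
    refine one_mem _ _ (by omega) ?_
    rw [l1, if_pos rfl, one_mul]
    exact hY
  · rw [show Y ^ 5 * ff X Y Z = 1 * mon X Y 4 + Z * mon X Y 3 by rw [mon, mon, ff]; ring]
    refine two_mem _ _ _ _ (by omega) (by omega) ?_
    rw [l1, l1, if_neg (by omega), if_pos rfl, if_pos rfl]
    rw [show -Z * 1 + 1 * Z = 0 by ring]
    exact Ideal.zero_mem _
  · rw [show Y ^ 5 * X ^ 5 = 1 * mon X Y 5 by rw [mon]; ring]
    exact h0 _ _ (by omega) (by omega) (by omega)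
  · rw [show X * Y ^ 4 * (X * Y ^ 4) = 1 * mon X Y 2 by rw [mon]; ring]
    exact h0 _ _ (by omega) (by omega) (by omega)
  · rw [show X * Y ^ 4 * (X ^ 3 * Y ^ 3) = Y * mon X Y 4 by rw [mon]; ring]
    refine one_mem _ _ (by omega) ?_
    exact Ideal.mul_mem_left _ _ hY
  · rw [show X * Y ^ 4 * ff X Y Z = 1 * mon X Y 5 + Z * mon X Y 4 by rw [mon, mon, ff]; ring]
    refine two_mem _ _ _ _ (by omega) (by omega) ?_
    rw [l1, l1, if_neg (by omega), if_neg (by omega), if_neg (by omega), if_pos rfl]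
    rw [show (0 : R) * 1 + -Z * Z = (-1) * Z ^ 2 by ring]
    exact Ideal.mul_mem_left _ _ hZ
  · rw [show X * Y ^ 4 * X ^ 5 = 1 * mon X Y 6 by rw [mon]; ring]
    exact h0 _ _ (by omega) (by omega) (by omega)
  · rw [show X ^ 3 * Y ^ 3 * (X ^ 3 * Y ^ 3) = Y ^ 2 * mon X Y 6 by rw [mon]; ring]
    exact h0 _ _ (by omega) (by omega) (by omega)
  · rw [show X ^ 3 * Y ^ 3 * ff X Y Z = Y * mon X Y 7 + (Z * Y) * mon X Y 6 by
      rw [mon, mon, ff]; ring]
    exact Ideal.add_mem _ (h0 _ _ (by omega) (by omega) (by omega))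
      (h0 _ _ (by omega) (by omega) (by omega))
  · rw [show X ^ 3 * Y ^ 3 * X ^ 5 = Y * mon X Y 8 by rw [mon]; ring]
    exact h0 _ _ (by omega) (by omega) (by omega)
  · rw [show ff X Y Z * ff X Y Z = 1 * mon X Y 8 + (2 * Z) * mon X Y 7 + Z ^ 2 * mon X Y 6 by
      rw [mon, mon, mon, ff]; ring]
    exact Ideal.add_mem _ (Ideal.add_mem _ (h0 _ _ (by omega) (by omega) (by omega))
      (h0 _ _ (by omega) (by omega) (by omega))) (h0 _ _ (by omega) (by omega) (by omega))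
  · rw [show ff X Y Z * X ^ 5 = 1 * mon X Y 9 + Z * mon X Y 8 by rw [mon, mon, ff]; ring]
    exact Ideal.add_mem _ (h0 _ _ (by omega) (by omega) (by omega))
      (h0 _ _ (by omega) (by omega) (by omega))
  · rw [show X ^ 5 * X ^ 5 = 1 * mon X Y 10 by rw [mon]; ring]
    exact h0 _ _ (by omega) (by omega) (by omega)

theorem Q2_le_N2 : Q X Y Z ^ 2 ≤ NN X Y (l2 Z) (M X Y) := by
  have h0 : ∀ r : R, ∀ i, i ≤ 10 → i ≠ 7 → i ≠ 8 → i ≠ 9 →
      r * mon X Y i ∈ NN X Y (l2 Z) (M X Y) := by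
    intro r i hi h3 h4 h5
    refine one_mem i r hi ?_
    rw [l2, if_neg h3, if_neg h4, if_neg h5, zero_mul]
    exact Ideal.zero_mem _
  apply Q2_le
  · rw [show Y ^ 5 * Y ^ 5 = 1 * mon X Y 0 by rw [mon]; ring]
    exact h0 _ _ (by omega) (by omega) (by omega) (by omega)
  · rw [show Y ^ 5 * (X * Y ^ 4) = 1 * mon X Y 1 by rw [mon]; ring]
    exact h0 _ _ (by omega) (by omega) (by omega) (by omega)
  · rw [show Y ^ 5 * (X ^ 3 * Y ^ 3) = Y * mon X Y 3 by rw [mon]; ring]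
    exact h0 _ _ (by omega) (by omega) (by omega) (by omega)
  · rw [show Y ^ 5 * ff X Y Z = 1 * mon X Y 4 + Z * mon X Y 3 by rw [mon, mon, ff]; ring]
    exact Ideal.add_mem _ (h0 _ _ (by omega) (by omega) (by omega) (by omega))
      (h0 _ _ (by omega) (by omega) (by omega) (by omega))
  · rw [show Y ^ 5 * X ^ 5 = 1 * mon X Y 5 by rw [mon]; ring]
    exact h0 _ _ (by omega) (by omega) (by omega) (by omega)
  · rw [show X * Y ^ 4 * (X * Y ^ 4) = 1 * mon X Y 2 by rw [mon]; ring]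
    exact h0 _ _ (by omega) (by omega) (by omega) (by omega)
  · rw [show X * Y ^ 4 * (X ^ 3 * Y ^ 3) = Y * mon X Y 4 by rw [mon]; ring]
    exact h0 _ _ (by omega) (by omega) (by omega) (by omega)
  · rw [show X * Y ^ 4 * ff X Y Z = 1 * mon X Y 5 + Z * mon X Y 4 by rw [mon, mon, ff]; ring]
    exact Ideal.add_mem _ (h0 _ _ (by omega) (by omega) (by omega) (by omega))
      (h0 _ _ (by omega) (by omega) (by omega) (by omega))
  · rw [show X * Y ^ 4 * X ^ 5 = 1 * mon X Y 6 by rw [mon]; ring]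
    exact h0 _ _ (by omega) (by omega) (by omega) (by omega)
  · rw [show X ^ 3 * Y ^ 3 * (X ^ 3 * Y ^ 3) = Y ^ 2 * mon X Y 6 by rw [mon]; ring]
    exact h0 _ _ (by omega) (by omega) (by omega) (by omega)
  · rw [show X ^ 3 * Y ^ 3 * ff X Y Z = Y * mon X Y 7 + (Z * Y) * mon X Y 6 by
      rw [mon, mon, ff]; ring]
    refine Ideal.add_mem _ ?_ (h0 _ _ (by omega) (by omega) (by omega) (by omega))
    refine one_mem _ _ (by omega) ?_
    exact Ideal.mul_mem_left _ _ YY_mem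
  · rw [show X ^ 3 * Y ^ 3 * X ^ 5 = Y * mon X Y 8 by rw [mon]; ring]
    refine one_mem _ _ (by omega) ?_
    exact Ideal.mul_mem_left _ _ YY_mem
  · rw [show ff X Y Z * ff X Y Z = 1 * mon X Y 8 + (2 * Z) * mon X Y 7 + Z ^ 2 * mon X Y 6 by
      rw [mon, mon, mon, ff]; ring]
    refine Ideal.add_mem _ ?_ (h0 _ _ (by omega) (by omega) (by omega) (by omega))
    refine two_mem _ _ _ _ (by omega) (by omega) ?_
    rw [l2, l2, if_neg (by omega), if_pos rfl, if_pos rfl]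
    rw [show -(2 * Z) * 1 + 1 * (2 * Z) = 0 by ring]
    exact Ideal.zero_mem _
  · rw [show ff X Y Z * X ^ 5 = 1 * mon X Y 9 + Z * mon X Y 8 by rw [mon, mon, ff]; ring]
    refine two_mem _ _ _ _ (by omega) (by omega) ?_
    rw [l2, l2, if_neg (by omega), if_neg (by omega), if_pos rfl, if_neg (by omega), if_pos rfl]
    rw [show (2 * Z ^ 2) * 1 + -(2 * Z) * Z = 0 by ring]
    exact Ideal.zero_mem _
  · rw [show X ^ 5 * X ^ 5 = 1 * mon X Y 10 by rw [mon]; ring]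
    exact h0 _ _ (by omega) (by omega) (by omega) (by omega)

/-- `Q^2 + (X^3 Y^7)` -/
def J1 (X Y Z : R) : Ideal R := Q X Y Z ^ 2 ⊔ Ideal.span {mon X Y 3}

theorem Q2_mem {a b : R} (ha : a ∈ Q X Y Z) (hb : b ∈ Q X Y Z) : a * b ∈ Q X Y Z ^ 2 := by
  rw [pow_two]
  exact Ideal.mul_mem_mul ha hb

theorem colon1 [IsDomain R] (h : Good X Y Z) (r : R) :
    r ∈ KZ X Y Z ↔ r * mon X Y 3 ∈ Q X Y Z ^ 2 := by
  constructor
  · intro hr
    have h1 : KZ X Y Z ≤ Submodule.comap (LinearMap.mulRight R (mon X Y 3)) (Q X Y Z ^ 2) := by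
      rw [KZ, Ideal.span_le]
      rintro p (rfl | rfl | rfl)
      · change p * mon p Y 3 ∈ Q p Y Z ^ 2
        rw [show p * mon p Y 3 = p * Y ^ 4 * (p ^ 3 * Y ^ 3) by rw [mon]; ring]
        exact Q2_mem g2 g3
      · change p * mon X p 3 ∈ Q X p Z ^ 2
        rw [show p * mon X p 3 = p ^ 5 * (X ^ 3 * p ^ 3) by rw [mon]; ring]
        exact Q2_mem g1 g3
      · change Z ^ 2 * mon X Y 3 ∈ Q X Y Z ^ 2
        rw [show Z ^ 2 * mon X Y 3 = Z * (Y ^ 5 * ff X Y Z) - (X * Y ^ 4 * ff X Y Z) +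
          Y ^ 5 * X ^ 5 by rw [mon, ff]; ring]
        exact Ideal.add_mem _ (Ideal.sub_mem _ (Ideal.mul_mem_left _ _ (Q2_mem g1 g4))
          (Q2_mem g2 g4)) (Q2_mem g1 g5)
    exact h1 hr
  · intro hr
    have h1 := of_mem h (l := l1 Z) (K := KZ X Y Z) ?_ 3 r (by omega) (Q2_le_N1 hr)
    · rwa [l1, if_pos rfl, one_mul] at h1
    · rw [M, Ideal.span_le]
      rintro p (rfl | rfl)
      · exact Ideal.subset_span (by simp)
      · exact Ideal.subset_span (by simp)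

theorem colon2 [IsDomain R] (h : Good X Y Z) (r : R) :
    r ∈ M X Y ↔ r * mon X Y 7 ∈ J1 X Y Z := by
  constructor
  · intro hr
    have h1 : M X Y ≤ Submodule.comap (LinearMap.mulRight R (mon X Y 7)) (J1 X Y Z) := by
      rw [M, Ideal.span_le]
      rintro p (rfl | rfl)
      · change p * mon p Y 7 ∈ J1 p Y Z
        rw [show p * mon p Y 7 = p ^ 3 * Y ^ 3 * p ^ 5 by rw [mon]; ring]
        exact Submodule.mem_sup_left (Q2_mem g3 g5)
      · change p * mon X p 7 ∈ J1 X p Z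
        rw [show p * mon X p 7 = X * (X * p ^ 4 * X ^ 5) by rw [mon]; ring]
        exact Submodule.mem_sup_left (Ideal.mul_mem_left _ _ (Q2_mem g2 g5))
    exact h1 hr
  · intro hr
    have h1 := of_mem h (l := l2 Z) (K := M X Y) le_rfl 7 r (by omega) ?_
    · rwa [l2, if_pos rfl, one_mul] at h1
    · have h2 : J1 X Y Z ≤ NN X Y (l2 Z) (M X Y) := by
        rw [J1]
        refine sup_le Q2_le_N2 ?_
        rw [Ideal.span_singleton_le_iff_mem]
        have := one_mem (X := X) (Y := Y) (l := l2 Z) (K := M X Y) 3 1 (by omega) (by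
          rw [l2, if_neg (by omega), if_neg (by omega), if_neg (by omega), zero_mul]
          exact Ideal.zero_mem _)
        rwa [one_mul] at this
      exact h2 hr

theorem mon_mem (i : ℕ) (hi : i ≤ 10) : mon X Y i ∈ M X Y ^ 10 := by
  have : M X Y ^ 10 = M X Y ^ i * M X Y ^ (10 - i) := by
    rw [← pow_add]
    congr 1
    omega
  rw [this, mon]
  exact Ideal.mul_mem_mul (Ideal.pow_mem_pow XX_mem _) (Ideal.pow_mem_pow YY_mem _)

theorem M10 : M X Y ^ 10 = J1 X Y Z ⊔ Ideal.span {mon X Y 7} := by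
  apply le_antisymm
  · apply M_pow_le
    have hJ : ∀ {p : R}, p ∈ Q X Y Z ^ 2 → p ∈ J1 X Y Z ⊔ Ideal.span {mon X Y 7} :=
      fun {p} hp => Submodule.mem_sup_left (Submodule.mem_sup_left hp)
    have ha : mon X Y 3 ∈ J1 X Y Z ⊔ Ideal.span {mon X Y 7} :=
      Submodule.mem_sup_left (Submodule.mem_sup_right (Ideal.mem_span_singleton_self _))
    have hb : mon X Y 7 ∈ J1 X Y Z ⊔ Ideal.span {mon X Y 7} :=
      Submodule.mem_sup_right (Ideal.mem_span_singleton_self _)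
    have m8 : mon X Y 8 ∈ J1 X Y Z ⊔ Ideal.span {mon X Y 7} := by
      rw [show mon X Y 8 = ff X Y Z * ff X Y Z - (2 * Z) * mon X Y 7 -
        Z ^ 2 * (X * Y ^ 4 * X ^ 5) by rw [mon, mon, ff]; ring]
      exact Ideal.sub_mem _ (Ideal.sub_mem _ (hJ (Q2_mem g4 g4)) (Ideal.mul_mem_left _ _ hb))
        (Ideal.mul_mem_left _ _ (hJ (Q2_mem g2 g5)))
    intro i j hij
    have hi : i ≤ 10 := by omega
    obtain rfl : j = 10 - i := by omega
    change mon X Y i ∈ _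
    interval_cases i
    · rw [show mon X Y 0 = Y ^ 5 * Y ^ 5 by rw [mon]; ring]
      exact hJ (Q2_mem g1 g1)
    · rw [show mon X Y 1 = Y ^ 5 * (X * Y ^ 4) by rw [mon]; ring]
      exact hJ (Q2_mem g1 g2)
    · rw [show mon X Y 2 = (X * Y ^ 4) * (X * Y ^ 4) by rw [mon]; ring]
      exact hJ (Q2_mem g2 g2)
    · exact ha
    · rw [show mon X Y 4 = Y ^ 5 * ff X Y Z - Z * mon X Y 3 by rw [mon, mon, ff]; ring]
      exact Ideal.sub_mem _ (hJ (Q2_mem g1 g4)) (Ideal.mul_mem_left _ _ ha)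
    · rw [show mon X Y 5 = Y ^ 5 * X ^ 5 by rw [mon]; ring]
      exact hJ (Q2_mem g1 g5)
    · rw [show mon X Y 6 = X * Y ^ 4 * X ^ 5 by rw [mon]; ring]
      exact hJ (Q2_mem g2 g5)
    · exact hb
    · exact m8
    · rw [show mon X Y 9 = ff X Y Z * X ^ 5 - Z * mon X Y 8 by rw [mon, mon, ff]; ring]
      exact Ideal.sub_mem _ (hJ (Q2_mem g4 g5)) (Ideal.mul_mem_left _ _ m8)
    · rw [show mon X Y 10 = X ^ 5 * X ^ 5 by rw [mon]; ring]
      exact hJ (Q2_mem g5 g5)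
  · refine sup_le (sup_le ?_ ?_) ?_
    · calc Q X Y Z ^ 2 ≤ (M X Y ^ 5) ^ 2 := Ideal.pow_right_mono Q_le 2
        _ = M X Y ^ 10 := by rw [← pow_mul]
    · rw [Ideal.span_singleton_le_iff_mem]
      exact mon_mem 3 (by omega)
    · rw [Ideal.span_singleton_le_iff_mem]
      exact mon_mem 7 (by omega)

theorem colon0 (h : Good X Y Z) (r : R) : r ∈ M X Y ↔ r * Z ^ 2 ∈ M X Y := by
  constructor
  · intro hr
    exact Ideal.mul_mem_right _ _ hr
  · intro hr
    apply h.zreg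
    apply h.zreg
    have : Z * (Z * r) = r * Z ^ 2 := by ring
    rw [this]
    exact hr

theorem KZ_eq : KZ X Y Z = M X Y ⊔ Ideal.span {Z ^ 2} := by
  rw [KZ, M, Ideal.span_insert, Ideal.span_insert, Ideal.span_insert, sup_assoc]

theorem pdM (h : Good X Y Z) [IsDomain R] (n : ℕ) : PdLT (M X Y ^ n) 2 := (pd_M h n).pdLT

theorem pdM1 (h : Good X Y Z) [IsDomain R] : PdLT (M X Y) 2 := by
  have := pdM h 1
  rwa [pow_one] at this

theorem pdKZ (h : Good X Y Z) [IsDomain R] : PdLT (KZ X Y Z) 3 :=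
  pdLT_sum (n := 2) KZ_eq (colon0 h) (pdM1 h) ((pdM1 h).mono (by omega))

theorem not_pdKZ (h : Good X Y Z) [IsDomain R] : ¬ PdLT (KZ X Y Z) 2 := by
  intro h1
  have hfg : (KZ X Y Z).FG := by
    classical
    exact ⟨{X, Y, Z ^ 2}, by simp [KZ]⟩
  have h2 := h1.pdLeOne hfg
  apply h.proper
  have hX : X ∈ KZ X Y Z := Ideal.subset_span (by simp)
  have hY : Y ∈ KZ X Y Z := Ideal.subset_span (by simp)
  have hZ : Z ^ 2 ∈ KZ X Y Z := Ideal.subset_span (by simp)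
  refine mem_of_pdLeOne (x := Z ^ 2) (y := Y) (z := X) (w := 1) (pow_ne_zero _ h.zne) h.ne
    ?_ ?_ ?_ h2 ?_ ?_ ?_
  · intro a b hab
    exact h.zY a ⟨b, hab⟩
  · intro a b hab
    have := h.cop 1 1 a ⟨b, by rw [pow_one, pow_one]; exact hab⟩
    rwa [pow_one] at this
  · intro a b c habc
    have h3 : a * Z ^ 2 ∈ M X Y := by
      rw [M, Ideal.mem_span_pair]
      exact ⟨-c, -b, by linear_combination -habc⟩
    have h4 := (colon0 h a).2 h3
    rw [M, Ideal.mem_span_pair] at h4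
    obtain ⟨p, q, hpq⟩ := h4
    exact ⟨p, -q, by linear_combination -hpq⟩
  · rw [mul_one]; exact hZ
  · rw [mul_one]; exact hY
  · rw [mul_one]; exact hX

theorem pdJ1 (h : Good X Y Z) [IsDomain R] : PdLT (J1 X Y Z) 2 :=
  pdLT_of_colon (n := 2) M10 (colon2 h) (pdM1 h) (pdM h 10)

theorem pdQ2 (h : Good X Y Z) [IsDomain R] : PdLT (Q X Y Z ^ 2) 3 :=
  pdLT_of_colon (n := 3) (J := J1 X Y Z) rfl (colon1 h) (pdKZ h) ((pdJ1 h).mono (by omega))

theorem not_pdQ2 (h : Good X Y Z) [IsDomain R] : ¬ PdLT (Q X Y Z ^ 2) 2 := by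
  intro h1
  exact not_pdKZ h (pdLT_colon (n := 1) (J := J1 X Y Z) rfl (colon1 h) h1
    ((pdJ1 h).mono (by omega)))

end Pool.Agent.H89.PdU
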