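import Mathlib
import Pool.Agent.H89.PdSeq

set_option autoImplicit false

/-!
The three elements `x_0 ^ 2`, `x_1`, `x_2` of a polynomial ring over a field
(problem MP_1cfa24_ag).
-/

namespace Pool.Agent.H89.PdU

open MvPolynomial

universe u

variable {k : Type u} [Field k] {σ : Type} {a b c : σ}

theorem mem_span_pair_iff (p : MvPolynomial σ k) :
    p ∈ Ideal.span {(X a : MvPolynomial σ k) ^ 2, X b} ↔
      ∀ m ∈ p.support, 2 ≤ m a ∨ 1 ≤ m b := by
  have h := mem_ideal_span_monomial_image (R := k) (x := p)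
    (s := {Finsupp.single a 2, Finsupp.single b 1})
  have h1 : (fun s : σ →₀ ℕ => monomial s (1 : k)) '' {Finsupp.single a 2, Finsupp.single b 1} =
      {(X a : MvPolynomial σ k) ^ 2, X b} := by
    rw [Set.image_pair, X_pow_eq_monomial]
    rfl
  rw [h1] at h
  rw [h]
  refine forall₂_congr (fun m _ => ?_)
  simp

theorem mem_span_triple_iff (p : MvPolynomial σ k) :
    p ∈ Ideal.span {(X a : MvPolynomial σ k) ^ 2, X b, X c ^ 2} ↔
      ∀ m ∈ p.support, 2 ≤ m a ∨ 1 ≤ m b ∨ 2 ≤ m c := by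
  have h := mem_ideal_span_monomial_image (R := k) (x := p)
    (s := {Finsupp.single a 2, Finsupp.single b 1, Finsupp.single c 2})
  have h1 : (fun s : σ →₀ ℕ => monomial s (1 : k)) ''
      {Finsupp.single a 2, Finsupp.single b 1, Finsupp.single c 2} =
      {(X a : MvPolynomial σ k) ^ 2, X b, X c ^ 2} := by
    rw [Set.image_insert_eq, Set.image_pair, X_pow_eq_monomial, X_pow_eq_monomial]
    rfl
  rw [h1] at h
  rw [h]
  refine forall₂_congr (fun m _ => ?_)
  simp

theorem not_X_dvd_X_pow {i j : σ} (hij : i ≠ j) (n : ℕ) : ¬ (X i : MvPolynomial σ k) ∣ X j ^ n := by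
  intro h
  have h2 := (X_prime (R := k) (i := i)).dvd_of_dvd_pow h
  rw [X_dvd_X] at h2
  exact hij h2

theorem good (hab : a ≠ b) (hac : a ≠ c) (hbc : b ≠ c) :
    Good ((X a : MvPolynomial σ k) ^ 2) (X b) (X c) where
  ne := pow_ne_zero _ (X_ne_zero _)
  cop := by
    intro n m q h
    rw [← pow_mul] at *
    exact (X_prime (R := k) (i := a)).pow_dvd_of_dvd_mul_left _ (not_X_dvd_X_pow hab m) h
  prime := X_prime
  ndvd := not_X_dvd_X_pow (Ne.symm hab) 2
  zreg := by
    intro p h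
    rw [mem_span_pair_iff] at h ⊢
    intro m hm
    have h1 := h (Finsupp.single c 1 + m) (by
      rw [mem_support_iff] at hm ⊢
      rwa [coeff_X_mul])
    simpa [Finsupp.single_apply, hac, hbc, Ne.symm hac, Ne.symm hbc] using h1
  zY := by
    intro q h
    exact (X_prime (R := k) (i := c)).pow_dvd_of_dvd_mul_left _
      (by rw [← pow_one (X b)]; exact not_X_dvd_X_pow (Ne.symm hbc) 1) h
  zne := X_ne_zero _
  proper := by
    rw [mem_span_triple_iff]
    intro h
    have h1 := h 0 (by simp)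
    simp at h1

theorem homog (q : MvPolynomial σ k)
    (hq : q ∈ ({X b ^ 5, X a ^ 2 * X b ^ 4, (X a ^ 2) ^ 3 * X b ^ 3, ff (X a ^ 2) (X b) (X c),
      (X a ^ 2) ^ 5} : Set (MvPolynomial σ k))) : ∃ d, q.IsHomogeneous d := by
  have hX : ∀ (i : σ) (n : ℕ), ((X i : MvPolynomial σ k) ^ n).IsHomogeneous n := by
    intro i n
    have := (isHomogeneous_X k i).pow n
    rwa [one_mul] at this
  rcases hq with rfl | rfl | rfl | rfl | rfl
  · exact ⟨5, hX _ _⟩
  · exact ⟨2 + 4, (hX _ _).mul (hX _ _)⟩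
  · exact ⟨2 * 3 + 3, ((hX _ _).pow 3).mul (hX _ _)⟩
  · refine ⟨9, ?_⟩
    rw [ff]
    refine IsHomogeneous.add ?_ ?_
    · have := ((hX a 2).pow 4).mul (hX b 1)
      rw [pow_one] at this
      exact this
    · have := (hX c 1).mul (((hX a 2).pow 3).mul (hX b 2))
      rw [pow_one] at this
      exact this
  · exact ⟨2 * 5, (hX _ _).pow 5⟩

end Pool.Agent.H89.PdU
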