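import Mathlib

set_option autoImplicit false

/-!
Algebraic lemmas in `ℝ[x,y,z]` used for the regularity of planar spline modules
(problem MP_75549a_ag).
-/

namespace Pool.Agent.H89.Spline

open MvPolynomial

/-- The polynomial ring `ℝ[x,y,z]`. -/
abbrev R3 := MvPolynomial (Fin 3) ℝ

theorem isHomogeneous_iff {p : R3} {n : ℕ} :
    p.IsHomogeneous n ↔ ∀ m ∈ p.support, m.degree = n := by
  constructor
  · intro h m hm
    by_contra hne
    exact (mem_support_iff.1 hm) (h.coeff_eq_zero hne)
  · intro h m hm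
    have h1 := h m (mem_support_iff.2 hm)
    rw [Finsupp.degree_eq_weight_one] at h1
    exact h1

/-- A vector of polynomials is homogeneous of degree `e` for the degree shifts `dg`: every
monomial of the `j`-th entry has degree `e - dg j`. -/
def HVec {J : Type} (dg : J → ℕ) (e : ℕ) (v : J → R3) : Prop :=
  ∀ j, ∀ m ∈ (v j).support, m.degree + dg j = e

theorem HVec.isHomogeneous {J : Type} {dg : J → ℕ} {e : ℕ} {v : J → R3} (h : HVec dg e v)
    (j : J) : (v j).IsHomogeneous (e - dg j) := by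
  rw [isHomogeneous_iff]
  intro m hm
  have := h j m hm
  omega

theorem HVec.eq_zero {J : Type} {dg : J → ℕ} {e : ℕ} {v : J → R3} (h : HVec dg e v)
    {j : J} (hj : e < dg j) : v j = 0 := by
  by_contra hne
  obtain ⟨m, hm⟩ := MvPolynomial.support_nonempty.2 hne
  have := h j m hm
  omega

theorem hVec_of {J : Type} {dg : J → ℕ} {e : ℕ} {v : J → R3}
    (h1 : ∀ j, dg j ≤ e → (v j).IsHomogeneous (e - dg j)) (h2 : ∀ j, e < dg j → v j = 0) :
    HVec dg e v := by
  intro j m hm
  by_cases hj : dg j ≤ e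
  · have := isHomogeneous_iff.1 (h1 j hj) m hm
    omega
  · rw [h2 j (by omega)] at hm
    simp at hm

theorem hc_mul {a g : R3} {δ N : ℕ} (hg : g.IsHomogeneous δ) :
    homogeneousComponent N (a * g) =
      if δ ≤ N then homogeneousComponent (N - δ) a * g else 0 := by
  have key : ∀ i, homogeneousComponent N (homogeneousComponent i a * g) =
      if i + δ = N then homogeneousComponent i a * g else 0 := by
    intro i
    rw [homogeneousComponent_of_mem (n := i + δ)
      ((homogeneousComponent_isHomogeneous i a).mul hg)]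
    simp only [eq_comm]
  have hsum : a * g = ∑ i ∈ Finset.range (a.totalDegree + 1), homogeneousComponent i a * g := by
    rw [← Finset.sum_mul, sum_homogeneousComponent]
  conv_lhs => rw [hsum, map_sum]
  simp_rw [key]
  split_ifs with h
  · by_cases h2 : N - δ ∈ Finset.range (a.totalDegree + 1)
    · rw [Finset.sum_eq_single_of_mem _ h2]
      · rw [if_pos (by omega)]
      · intro i _ hi
        rw [if_neg (by omega)]
    · rw [Finset.mem_range] at h2
      rw [homogeneousComponent_eq_zero _ _ (by omega), zero_mul]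
      apply Finset.sum_eq_zero
      intro i hi
      rw [Finset.mem_range] at hi
      rw [if_neg (by omega)]
  · apply Finset.sum_eq_zero
    intro i _
    rw [if_neg (by omega)]

/-- Coefficients in a relation between homogeneous vectors can be taken homogeneous. -/
theorem exists_homog {J K : Type} [Fintype J] (dg : J → ℕ) (dk : K → ℕ) (v : J → K → R3)
    (hv : ∀ j, HVec dk (dg j) (v j)) (e : ℕ) (t : K → R3) (ht : HVec dk e t) (ω : J → R3)
    (hω : t = ∑ j, ω j • v j) : ∃ ω' : J → R3, HVec dg e ω' ∧ t = ∑ j, ω' j • v j := by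
  classical
  refine ⟨fun j => if dg j ≤ e then homogeneousComponent (e - dg j) (ω j) else 0, ?_, ?_⟩
  · apply hVec_of
    · intro j hj
      simp only [hj, if_true]
      exact homogeneousComponent_isHomogeneous _ _
    · intro j hj
      rw [if_neg (by omega)]
  · funext k
    have hk : t k = ∑ j, ω j * v j k := by
      rw [hω]; simp
    have hgoal : (∑ j, (if dg j ≤ e then homogeneousComponent (e - dg j) (ω j) else 0) • v j) k =
        ∑ j, (if dg j ≤ e then homogeneousComponent (e - dg j) (ω j) else 0) * v j k := by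
      rw [Finset.sum_apply]
      rfl
    rw [hgoal]
    by_cases hke : dk k ≤ e
    · have h1 : t k = homogeneousComponent (e - dk k) (t k) :=
        (homogeneousComponent_eq_self (ht.isHomogeneous k)).symm
      rw [h1, hk, map_sum]
      refine Finset.sum_congr rfl (fun j _ => ?_)
      by_cases hkj : dk k ≤ dg j
      · rw [hc_mul ((hv j).isHomogeneous k)]
        by_cases hj : dg j ≤ e
        · rw [if_pos (by omega), if_pos hj]
          congr 2
          congr 1
          omega
        · rw [if_neg (by omega), if_neg hj, zero_mul]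
      · rw [(hv j).eq_zero (by omega)]
        simp
    · rw [ht.eq_zero (by omega)]
      symm
      apply Finset.sum_eq_zero
      intro j _
      by_cases hj : dg j ≤ e
      · rw [(hv j).eq_zero (by omega), mul_zero]
      · rw [if_neg hj, zero_mul]

/-! ### The three coordinate powers -/

/-- In three variables, a monomial of degree at least `3n-2` is divisible by an `n`-th power of a
variable. -/
theorem mem_span_pow {n M : ℕ} (hn : 1 ≤ n) (hM : 3 * n - 2 ≤ M) {w : R3}
    (hw : ∀ m ∈ w.support, m.degree = M) :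
    w ∈ Ideal.span {(X 2 : R3) ^ n, (X 0 : R3) ^ n, (X 1 : R3) ^ n} := by
  rw [w.as_sum]
  refine Ideal.sum_mem _ (fun m hm => ?_)
  have h1 := hw m hm
  rw [Finsupp.degree_eq_sum, Fin.sum_univ_three] at h1
  have h2 : ∃ i : Fin 3, n ≤ m i := by
    by_contra hcon
    push Not at hcon
    have a0 := hcon 0
    have a1 := hcon 1
    have a2 := hcon 2
    omega
  obtain ⟨i, hi⟩ := h2
  have h3 : (X i : R3) ^ n ∣ monomial m (coeff m w) := by
    rw [X_pow_eq_monomial, monomial_dvd_monomial]
    refine ⟨Or.inr ?_, one_dvd _⟩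
    rw [Finsupp.single_le_iff]
    exact hi
  obtain ⟨q, hq⟩ := h3
  rw [hq]
  apply Ideal.mul_mem_right
  apply Ideal.subset_span
  fin_cases i <;> simp

/-- If `z^n a ∈ (x^n, y^n)` then `a ∈ (x^n, y^n)`. -/
theorem colon_coord {n : ℕ} {a b c : R3}
    (h : (X 2 : R3) ^ n * a = X 0 ^ n * b + X 1 ^ n * c) :
    a ∈ Ideal.span {(X 0 : R3) ^ n, (X 1 : R3) ^ n} := by
  have hset : ({(X 0 : R3) ^ n, (X 1 : R3) ^ n} : Set R3) =
      (fun s => monomial s (1 : ℝ)) '' {Finsupp.single 0 n, Finsupp.single 1 n} := by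
    rw [Set.image_pair, X_pow_eq_monomial, X_pow_eq_monomial]
  have h1 : (X 2 : R3) ^ n * a ∈ Ideal.span {(X 0 : R3) ^ n, (X 1 : R3) ^ n} := by
    rw [h]
    exact Ideal.add_mem _ (Ideal.mul_mem_right _ _ (Ideal.subset_span (by simp)))
      (Ideal.mul_mem_right _ _ (Ideal.subset_span (by simp)))
  rw [hset, mem_ideal_span_monomial_image] at h1 ⊢
  intro m hm
  have h2 : Finsupp.single 2 n + m ∈ ((X 2 : R3) ^ n * a).support := by
    rw [mem_support_iff] at hm ⊢
    rw [X_pow_eq_monomial, coeff_monomial_mul]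
    simpa using hm
  obtain ⟨s, hs, hsm⟩ := h1 _ h2
  refine ⟨s, hs, ?_⟩
  rcases hs with rfl | rfl
  · rw [Finsupp.single_le_iff] at hsm ⊢
    simpa using hsm
  · rw [Finsupp.single_le_iff] at hsm ⊢
    simpa using hsm

/-- The linear change of coordinates `z ↦ (2x + y - z)/4`. -/
noncomputable def th : R3 →ₐ[ℝ] R3 :=
  aeval ![X 0, X 1, C (1 / 4) * (2 * X 0 + X 1 - X 2)]

/-- The inverse change of coordinates `z ↦ 2x + y - 4z`. -/
noncomputable def th' : R3 →ₐ[ℝ] R3 :=
  aeval ![X 0, X 1, 2 * X 0 + X 1 - 4 * X 2]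

/-- The linear form `2x + y - 4z`. -/
noncomputable def ZZ : R3 := 2 * X 0 + X 1 - 4 * X 2

theorem C_two : (C 2 : R3) = 2 := map_ofNat C 2
theorem C_four : (C 4 : R3) = 4 := map_ofNat C 4

theorem C4 : (C (1 / 4) : R3) * 4 = 1 := by
  rw [← C_four, ← C_mul]; norm_num

theorem th_X0 : th (X 0) = X 0 := by simp [th]
theorem th_X1 : th (X 1) = X 1 := by simp [th]
theorem th_X2 : th (X 2) = C (1 / 4) * (2 * X 0 + X 1 - X 2) := by simp [th]
theorem th'_X0 : th' (X 0) = X 0 := by simp [th']
theorem th'_X1 : th' (X 1) = X 1 := by simp [th']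
theorem th'_X2 : th' (X 2) = ZZ := by simp [th', ZZ]

theorem th_ZZ : th ZZ = X 2 := by
  rw [ZZ, map_sub, map_add, map_mul, map_mul, th_X0, th_X1, th_X2]
  have h2 : th (2 : R3) = 2 := map_ofNat th 2
  have h4 : th (4 : R3) = 4 := map_ofNat th 4
  rw [h2, h4]
  linear_combination (-(2 * X 0 + X 1 - X 2)) * C4

theorem th_th' (p : R3) : th (th' p) = p := by
  have : th.comp th' = AlgHom.id ℝ R3 := by
    apply MvPolynomial.algHom_ext
    intro i
    fin_cases i
    · change th (th' (X 0)) = X 0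
      rw [th'_X0, th_X0]
    · change th (th' (X 1)) = X 1
      rw [th'_X1, th_X1]
    · change th (th' (X 2)) = X 2
      rw [th'_X2, th_ZZ]
  exact DFunLike.congr_fun this p

theorem th'_th (p : R3) : th' (th p) = p := by
  have : th'.comp th = AlgHom.id ℝ R3 := by
    apply MvPolynomial.algHom_ext
    intro i
    fin_cases i
    · change th' (th (X 0)) = X 0
      rw [th_X0, th'_X0]
    · change th' (th (X 1)) = X 1
      rw [th_X1, th'_X1]
    · change th' (th (X 2)) = X 2
      rw [th_X2, map_mul, map_sub, map_add, map_mul, th'_X0, th'_X1, th'_X2]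
      have h2 : th' (2 : R3) = 2 := map_ofNat th' 2
      have h4 : th' (C (1 / 4)) = C (1 / 4) := by
        rw [← algebraMap_eq]; exact th'.commutes _
      rw [h2, h4, ZZ]
      linear_combination (X 2) * C4
  exact DFunLike.congr_fun this p

theorem isHomogeneous_lin (a b c : ℝ) :
    (C a * X 0 + C b * X 1 + C c * X 2 : R3).IsHomogeneous 1 :=
  ((isHomogeneous_C_mul_X a 0).add (isHomogeneous_C_mul_X b 1)).add (isHomogeneous_C_mul_X c 2)

theorem ZZ_eq : ZZ = C 2 * X 0 + C 1 * X 1 + C (-4) * X 2 := by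
  rw [ZZ, C_neg, C_two, C_four, C_1]
  ring

theorem ZZ_homog : ZZ.IsHomogeneous 1 := by
  rw [ZZ_eq]; exact isHomogeneous_lin _ _ _

theorem th_homog {p : R3} {n : ℕ} (hp : p.IsHomogeneous n) : (th p).IsHomogeneous n := by
  have := hp.aeval (n := 1) (![X 0, X 1, C (1 / 4) * (2 * X 0 + X 1 - X 2)] : Fin 3 → R3) (by
    intro i
    fin_cases i
    · exact isHomogeneous_X _ _
    · exact isHomogeneous_X _ _
    · have h : (C (1 / 4) * (2 * X 0 + X 1 - X 2) : R3) =
          C (1 / 2) * X 0 + C (1 / 4) * X 1 + C (- 1 / 4) * X 2 := by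
        have e1 : (C (1 / 2) : R3) = C (1 / 4) * 2 := by
          rw [← C_two, ← C_mul]; norm_num
        have e2 : (C (- 1 / 4) : R3) = - C (1 / 4) := by
          rw [← C_neg]; norm_num
        rw [e1, e2]; ring
      change (C (1 / 4) * (2 * X 0 + X 1 - X 2) : R3).IsHomogeneous 1
      rw [h]
      exact isHomogeneous_lin _ _ _)
  rwa [one_mul] at this

theorem th'_homog {p : R3} {n : ℕ} (hp : p.IsHomogeneous n) : (th' p).IsHomogeneous n := by
  have := hp.aeval (n := 1) (![X 0, X 1, 2 * X 0 + X 1 - 4 * X 2] : Fin 3 → R3) (by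
    intro i
    fin_cases i
    · exact isHomogeneous_X _ _
    · exact isHomogeneous_X _ _
    · exact ZZ_homog)
  rwa [one_mul] at this

/-- High degree forms lie in `(Z^n, x^n, y^n)`. -/
theorem mem_span_pow' {n M : ℕ} (hn : 1 ≤ n) (hM : 3 * n - 2 ≤ M) {w : R3}
    (hw : w.IsHomogeneous M) : ∃ a b c, w = ZZ ^ n * a + X 0 ^ n * b + X 1 ^ n * c := by
  have h1 := mem_span_pow hn hM (isHomogeneous_iff.1 (th_homog hw))
  rw [Ideal.mem_span_insert] at h1
  obtain ⟨a, v, hv, h1⟩ := h1
  rw [Ideal.mem_span_pair] at hv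
  obtain ⟨b, c, hbc⟩ := hv
  refine ⟨th' a, th' b, th' c, ?_⟩
  rw [← th'_th w, h1, ← hbc, map_add, map_add, map_mul, map_mul, map_mul, map_pow, map_pow,
    map_pow, th'_X0, th'_X1, th'_X2]
  ring

theorem colon_Z {n : ℕ} {a b c : R3} (h : ZZ ^ n * a = X 0 ^ n * b + X 1 ^ n * c) :
    ∃ p q, a = X 0 ^ n * p + X 1 ^ n * q := by
  have h1 := congrArg th h
  rw [map_mul, map_add, map_mul, map_mul, map_pow, map_pow, map_pow, th_ZZ, th_X0, th_X1] at h1
  have h2 := colon_coord h1
  rw [Ideal.mem_span_pair] at h2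
  obtain ⟨p, q, hpq⟩ := h2
  refine ⟨th' p, th' q, ?_⟩
  rw [← th'_th a, ← hpq, map_add, map_mul, map_mul, map_pow, map_pow, th'_X0, th'_X1]
  ring

theorem X1_pow_dvd {n : ℕ} {a b : R3} (h : (X 0 : R3) ^ n * a = X 1 ^ n * b) :
    (X 1 : R3) ^ n ∣ a := by
  refine (X_prime (R := ℝ) (i := (1 : Fin 3))).pow_dvd_of_dvd_mul_left n ?_ ⟨b, h⟩
  intro h1
  have h2 := (X_prime (R := ℝ) (i := (1 : Fin 3))).dvd_of_dvd_pow h1
  rw [X_dvd_X] at h2
  exact absurd h2 (by decide)

/-- Exactness of the Koszul complex of `(Z^n, x^n, y^n)` in degree one. -/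
theorem koszul {n : ℕ} {a b c : R3} (h : ZZ ^ n * a + X 0 ^ n * b + X 1 ^ n * c = 0) :
    ∃ p q s, a = X 1 ^ n * p - X 0 ^ n * q ∧ b = ZZ ^ n * q - X 1 ^ n * s ∧
      c = X 0 ^ n * s - ZZ ^ n * p := by
  obtain ⟨q', p, hpq⟩ := colon_Z (n := n) (a := a) (b := -b) (c := -c)
    (by linear_combination h)
  -- a = x^n q' + y^n p
  have h1 : (X 0 : R3) ^ n * (b + ZZ ^ n * q') = X 1 ^ n * (-(c + ZZ ^ n * p)) := by
    rw [hpq] at h
    linear_combination h
  obtain ⟨s, hs⟩ := X1_pow_dvd h1
  have hx : (X 1 : R3) ^ n ≠ 0 := pow_ne_zero _ (X_ne_zero _)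
  refine ⟨p, -q', -s, ?_, ?_, ?_⟩
  · rw [hpq]; ring
  · linear_combination hs
  · apply mul_left_cancel₀ hx
    rw [hs] at h1
    linear_combination h1

/-! ### Linear forms are prime -/

theorem prime_of_totalDegree_one {p : R3} (hp : p.totalDegree = 1) : Prime p := by
  rw [← irreducible_iff_prime]
  have hp0 : p ≠ 0 := by
    rintro rfl
    simp at hp
  constructor
  · intro hu
    obtain ⟨q, hq⟩ := hu.exists_right_inv
    have hq0 : q ≠ 0 := by
      rintro rfl
      simp at hq
    have h1 := totalDegree_mul_of_isDomain hp0 hq0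
    rw [hq, totalDegree_one] at h1
    omega
  · intro a b hab
    have ha0 : a ≠ 0 := by rintro rfl; simp at hab; exact hp0 hab
    have hb0 : b ≠ 0 := by rintro rfl; simp at hab; exact hp0 hab
    have h1 := totalDegree_mul_of_isDomain ha0 hb0
    rw [← hab, hp] at h1
    have hunit : ∀ c : R3, c ≠ 0 → c.totalDegree = 0 → IsUnit c := by
      intro c hc hc0
      rw [totalDegree_eq_zero_iff_eq_C] at hc0
      rw [hc0]
      have : coeff 0 c ≠ 0 := by
        intro h
        rw [h, C_0] at hc0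
        exact hc hc0
      exact (isUnit_iff_ne_zero.2 this).map C
    by_cases ha : a.totalDegree = 0
    · exact Or.inl (hunit a ha0 ha)
    · exact Or.inr (hunit b hb0 (by omega))

/-- The linear form `a x + b y + c z`. -/
noncomputable def lin (a b c : ℝ) : R3 := C a * X 0 + C b * X 1 + C c * X 2

theorem lin_eval (a b c : ℝ) (v : Fin 3 → ℝ) : eval v (lin a b c) = a * v 0 + b * v 1 + c * v 2 := by
  simp [lin]

theorem lin_prime {a b c : ℝ} (h : a ≠ 0 ∨ b ≠ 0 ∨ c ≠ 0) : Prime (lin a b c) := by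
  apply prime_of_totalDegree_one
  apply (isHomogeneous_lin a b c).totalDegree
  intro h0
  have h1 : ∀ v : Fin 3 → ℝ, a * v 0 + b * v 1 + c * v 2 = 0 := by
    intro v
    rw [← lin_eval, lin, h0, map_zero]
  have e0 := h1 ![1, 0, 0]
  have e1 := h1 ![0, 1, 0]
  have e2 := h1 ![0, 0, 1]
  simp at e0 e1 e2
  rcases h with h | h | h
  · exact h e0
  · exact h e1
  · exact h e2

/-- Coprimality of powers of two non-proportional linear forms; non-proportionality is witnessed
by a common point `v` of the first form which is not on the second. -/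
theorem lin_pow_dvd {a b c : ℝ} {q f : R3} {n m : ℕ} (h : a ≠ 0 ∨ b ≠ 0 ∨ c ≠ 0) (v : Fin 3 → ℝ)
    (hv : a * v 0 + b * v 1 + c * v 2 = 0) (hq : eval v q ≠ 0) (hd : lin a b c ^ n ∣ q ^ m * f) :
    lin a b c ^ n ∣ f := by
  refine (lin_prime h).pow_dvd_of_dvd_mul_left n ?_ hd
  intro h1
  have h2 := (lin_prime h).dvd_of_dvd_pow h1
  obtain ⟨k, hk⟩ := h2
  apply hq
  rw [hk, map_mul, lin_eval, hv, zero_mul]

end Pool.Agent.H89.Spline
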