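import Pool.Agent.H89.SplineAlg

set_option autoImplicit false

namespace Pool.Agent.H89.Spline

open MvPolynomial

/-- A nonzero solution of the linear system dual to the three binary powers
`x^(r+1)`, `y^(r+1)`, `(x+y)^(r+1)` in degree `e`. -/
theorem exists_lam (r e : ℕ) (h1 : r + 1 ≤ e) (h2 : 2 * e ≤ 3 * r) : ∃ lam : ℕ → ℝ,
    (∀ i, i < e - r → lam i = 0) ∧ (∀ i, r < i → lam i = 0) ∧ (∃ i, lam i ≠ 0) ∧
    ∀ t < e - r, ∑ j ∈ Finset.range (r + 2), ((r + 1).choose j : ℝ) * lam (t + j) = 0 := by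
  classical
  let N := 2 * r - e + 1
  let ext : (Fin N → ℝ) →ₗ[ℝ] (ℕ → ℝ) :=
    { toFun := fun μ i => if h : e - r ≤ i ∧ i ≤ r then μ ⟨i - (e - r), by omega⟩ else 0
      map_add' := by
        intro μ ν
        funext i
        simp only [Pi.add_apply]
        split_ifs <;> simp
      map_smul' := by
        intro c μ
        funext i
        simp only [Pi.smul_apply, RingHom.id_apply]
        split_ifs <;> simp }
  have hext : ∀ μ i, ext μ i = if h : e - r ≤ i ∧ i ≤ r then μ ⟨i - (e - r), by omega⟩ else 0 :=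
    fun μ i => rfl
  let Φ : (Fin N → ℝ) →ₗ[ℝ] (Fin (e - r) → ℝ) :=
    { toFun := fun μ t => ∑ j ∈ Finset.range (r + 2), ((r + 1).choose j : ℝ) * ext μ (t + j)
      map_add' := by
        intro μ ν
        funext t
        simp only [map_add, Pi.add_apply, mul_add, Finset.sum_add_distrib]
      map_smul' := by
        intro c μ
        funext t
        simp only [map_smul, Pi.smul_apply, RingHom.id_apply, smul_eq_mul, Finset.mul_sum]
        refine Finset.sum_congr rfl (fun j _ => by ring) }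
  have hker : LinearMap.ker Φ ≠ ⊥ := by
    apply LinearMap.ker_ne_bot_of_finrank_lt
    rw [Module.finrank_fin_fun, Module.finrank_fin_fun]
    omega
  obtain ⟨μ, hμ, hμ0⟩ := Submodule.exists_mem_ne_zero_of_ne_bot hker
  refine ⟨ext μ, ?_, ?_, ?_, ?_⟩
  · intro i hi
    rw [hext, dif_neg (by omega)]
  · intro i hi
    rw [hext, dif_neg (by omega)]
  · obtain ⟨i, hi⟩ : ∃ i, μ i ≠ 0 := by
      by_contra hcon
      push Not at hcon
      exact hμ0 (funext hcon)
    refine ⟨i + (e - r), ?_⟩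
    have hlt := i.2
    rw [hext, dif_pos (by omega)]
    convert hi using 2
    apply Fin.ext
    simp
  · intro t ht
    have := congrFun (LinearMap.mem_ker.1 hμ) ⟨t, ht⟩
    exact this

/-- The exponent of `x^i y^(e-i) z^r`. -/
noncomputable def EE (r e i : ℕ) : Fin 3 →₀ ℕ :=
  Finsupp.single 0 i + Finsupp.single 1 (e - i) + Finsupp.single 2 r

theorem EE_0 (r e i : ℕ) : EE r e i 0 = i := by simp [EE]
theorem EE_1 (r e i : ℕ) : EE r e i 1 = e - i := by simp [EE]
theorem EE_2 (r e i : ℕ) : EE r e i 2 = r := by simp [EE]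

/-- The functional `f ↦ ∑ λ_i [x^i y^(e-i) z^r] f`. -/
noncomputable def Lam (r e : ℕ) (lam : ℕ → ℝ) (f : R3) : ℝ :=
  ∑ i ∈ Finset.range (e + 1), lam i * coeff (EE r e i) f

theorem Lam_add (r e : ℕ) (lam : ℕ → ℝ) (f g : R3) :
    Lam r e lam (f + g) = Lam r e lam f + Lam r e lam g := by
  simp [Lam, mul_add, Finset.sum_add_distrib]

theorem Lam_sum (r e : ℕ) (lam : ℕ → ℝ) {ι : Type} (s : Finset ι) (f : ι → R3) :
    Lam r e lam (∑ i ∈ s, f i) = ∑ i ∈ s, Lam r e lam (f i) := by
  simp only [Lam, coeff_sum, Finset.mul_sum]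
  rw [Finset.sum_comm]

theorem Lam_C_mul (r e : ℕ) (lam : ℕ → ℝ) (c : ℝ) (f : R3) :
    Lam r e lam (C c * f) = c * Lam r e lam f := by
  simp only [Lam, coeff_C_mul, Finset.mul_sum]
  exact Finset.sum_congr rfl (fun i _ => by ring)

/-- exponents `(a,b,c)` -/
noncomputable def ex (a b c : ℕ) : Fin 3 →₀ ℕ :=
  Finsupp.single 0 a + Finsupp.single 1 b + Finsupp.single 2 c

theorem mon_eq (a b c : ℕ) : (X 0 ^ a * X 1 ^ b * X 2 ^ c : R3) = monomial (ex a b c) 1 := by
  rw [X_pow_eq_monomial, X_pow_eq_monomial, X_pow_eq_monomial, monomial_mul, monomial_mul,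
    one_mul, one_mul]
  rfl

theorem coeff_mon (r e i a b c : ℕ) (g : R3) :
    coeff (EE r e i) ((X 0 ^ a * X 1 ^ b * X 2 ^ c) * g) =
      if a ≤ i ∧ b ≤ e - i ∧ c ≤ r then coeff (ex (i - a) (e - i - b) (r - c)) g else 0 := by
  rw [mon_eq, coeff_monomial_mul']
  have h1 : ex a b c ≤ EE r e i ↔ (a ≤ i ∧ b ≤ e - i ∧ c ≤ r) := by
    rw [Finsupp.le_def]
    constructor
    · intro h
      have h0 := h 0
      have h1 := h 1
      have h2 := h 2
      simp [ex, EE] at h0 h1 h2
      exact ⟨h0, h1, h2⟩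
    · rintro ⟨h0, h1, h2⟩ j
      fin_cases j
      · simpa [ex, EE] using h0
      · simpa [ex, EE] using h1
      · simpa [ex, EE] using h2
  simp only [h1, one_mul]
  split_ifs with h
  · congr 1
    ext j
    fin_cases j <;> simp [ex, EE]
  · rfl

theorem Lam_z {r e n : ℕ} {lam : ℕ → ℝ} (hn : r < n) (g : R3) :
    Lam r e lam (X 2 ^ n * g) = 0 := by
  apply Finset.sum_eq_zero
  intro i _
  have h := coeff_mon r e i 0 0 n g
  rw [pow_zero, pow_zero, one_mul, one_mul, if_neg (by omega)] at h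
  rw [h, mul_zero]

theorem Lam_x {r e n : ℕ} {lam : ℕ → ℝ} (hn : ∀ i, n ≤ i → lam i = 0) (g : R3) :
    Lam r e lam (X 0 ^ n * g) = 0 := by
  apply Finset.sum_eq_zero
  intro i _
  by_cases hi : n ≤ i
  · rw [hn i hi, zero_mul]
  · have h := coeff_mon r e i n 0 0 g
    rw [pow_zero, pow_zero, mul_one, mul_one, if_neg (by omega)] at h
    rw [h, mul_zero]

theorem Lam_y {r e n : ℕ} {lam : ℕ → ℝ} (hn : ∀ i, n ≤ e - i → lam i = 0) (g : R3) :
    Lam r e lam (X 1 ^ n * g) = 0 := by
  apply Finset.sum_eq_zero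
  intro i _
  by_cases hi : n ≤ e - i
  · rw [hn i hi, zero_mul]
  · have h := coeff_mon r e i 0 n 0 g
    rw [pow_zero, pow_zero, one_mul, mul_one, if_neg (by omega)] at h
    rw [h, mul_zero]

theorem Lam_xy {r e n : ℕ} {lam : ℕ → ℝ} (hne : n ≤ e)
    (hlam : ∀ t ≤ e - n, ∑ j ∈ Finset.range (n + 1), (n.choose j : ℝ) * lam (t + j) = 0) (g : R3) :
    Lam r e lam ((X 0 + X 1) ^ n * g) = 0 := by
  have hexp : ((X 0 + X 1) ^ n * g : R3) =
      ∑ j ∈ Finset.range (n + 1), C (n.choose j : ℝ) * ((X 0 ^ j * X 1 ^ (n - j) * X 2 ^ 0) * g) := by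
    rw [add_pow, Finset.sum_mul]
    refine Finset.sum_congr rfl (fun j _ => ?_)
    have : ((n.choose j : ℕ) : R3) = C (n.choose j : ℝ) := by simp
    rw [this, pow_zero]
    ring
  rw [hexp, Lam_sum]
  simp_rw [Lam_C_mul]
  -- the inner sums
  have hinner : ∀ j ∈ Finset.range (n + 1), Lam r e lam ((X 0 ^ j * X 1 ^ (n - j) * X 2 ^ 0) * g) =
      ∑ t ∈ Finset.range (e - n + 1), lam (t + j) * coeff (ex t (e - n - t) r) g := by
    intro j hj
    rw [Finset.mem_range] at hj
    rw [Lam]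
    have hsub : (Finset.range (e - n + 1)).image (fun t => t + j) ⊆ Finset.range (e + 1) := by
      intro i hi
      rw [Finset.mem_image] at hi
      obtain ⟨t, ht, rfl⟩ := hi
      rw [Finset.mem_range] at ht ⊢
      omega
    rw [← Finset.sum_subset hsub]
    · rw [Finset.sum_image (by intro a _ b _ h; simpa using h)]
      refine Finset.sum_congr rfl (fun t ht => ?_)
      rw [Finset.mem_range] at ht
      rw [coeff_mon, if_pos (by omega)]
      congr 3 <;> omega
    · intro i hi hi2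
      rw [Finset.mem_range] at hi
      rw [coeff_mon, if_neg, mul_zero]
      rintro ⟨h1, h2, -⟩
      apply hi2
      rw [Finset.mem_image]
      exact ⟨i - j, by rw [Finset.mem_range]; omega, by omega⟩
  rw [Finset.sum_congr rfl (fun j hj => by rw [hinner j hj])]
  simp_rw [Finset.mul_sum]
  rw [Finset.sum_comm]
  apply Finset.sum_eq_zero
  intro t ht
  rw [Finset.mem_range] at ht
  have h1 := hlam t (by omega)
  have h2 : ∑ j ∈ Finset.range (n + 1), (n.choose j : ℝ) * (lam (t + j) * coeff (ex t (e - n - t) r) g)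
      = (∑ j ∈ Finset.range (n + 1), (n.choose j : ℝ) * lam (t + j)) *
        coeff (ex t (e - n - t) r) g := by
    rw [Finset.sum_mul]
    exact Finset.sum_congr rfl (fun j _ => by ring)
  rw [h2, h1, zero_mul]

theorem Lam_mon {r e : ℕ} {lam : ℕ → ℝ} (a b c : ℕ) (hc : a + b = e ∧ c = r) :
    Lam r e lam (X 0 ^ a * X 1 ^ b * X 2 ^ c) = lam a := by
  obtain ⟨hab, rfl⟩ := hc
  rw [Lam, Finset.sum_eq_single a]
  · have h := coeff_mon c e a a b c 1
    rw [mul_one, if_pos (by omega)] at h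
    rw [h]
    have : ex (a - a) (e - a - b) (c - c) = 0 := by
      have h1 : a - a = 0 := by omega
      have h2 : e - a - b = 0 := by omega
      have h3 : c - c = 0 := by omega
      rw [h1, h2, h3]
      simp [ex]
    rw [this]
    simp
  · intro i hi hia
    rw [Finset.mem_range] at hi
    have h := coeff_mon c e i a b c 1
    rw [mul_one] at h
    rw [h]
    by_cases hcond : a ≤ i ∧ b ≤ e - i ∧ c ≤ c
    · omega
    · rw [if_neg hcond, mul_zero]
  · intro h
    rw [Finset.mem_range] at h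
    omega

theorem Lam_mon_ne {r e : ℕ} {lam : ℕ → ℝ} (a b c : ℕ) (hc : c ≠ r) :
    Lam r e lam (X 0 ^ a * X 1 ^ b * X 2 ^ c) = 0 := by
  apply Finset.sum_eq_zero
  intro i _
  rw [mon_eq, coeff_monomial, if_neg, mul_zero]
  intro h
  have := DFunLike.congr_fun h 2
  simp [ex, EE] at this
  exact hc this

/-- The key nonvanishing: `(4x + y - 4z)^(r+1) S` is not contained in the ideal of the four
powers in degree `r + e`. -/
theorem exists_h {r e : ℕ} (h1 : r + 1 ≤ e) (h2 : 2 * e ≤ 3 * r) :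
    ∃ g : R3, g.IsHomogeneous (e - 1) ∧
      ∀ a b c d : R3, lin 4 1 (-4) ^ (r + 1) * g ≠
        ZZ ^ (r + 1) * a + X 0 ^ (r + 1) * b + X 1 ^ (r + 1) * c + (X 0 + X 1) ^ (r + 1) * d := by
  obtain ⟨lam, hl1, hl2, ⟨i, hi⟩, hl3⟩ := exists_lam r e h1 h2
  have hi1 : e - r ≤ i := by
    by_contra h
    exact hi (hl1 i (by omega))
  have hi2 : i ≤ r := by
    by_contra h
    exact hi (hl2 i (by omega))
  refine ⟨X 0 ^ (i - 1) * X 1 ^ (e - i), ?_, ?_⟩
  · have := (isHomogeneous_X_pow (R := ℝ) (0 : Fin 3) (i - 1)).mul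
      (isHomogeneous_X_pow (R := ℝ) (1 : Fin 3) (e - i))
    convert this using 1
    omega
  · intro a b c d habcd
    have h3 := congrArg th habcd
    have hm : th (lin 4 1 (-4)) = 2 * X 0 + X 2 := by
      rw [lin, map_add, map_add, map_mul, map_mul, map_mul, th_X0, th_X1, th_X2]
      have hC : ∀ c : ℝ, th (C c) = C c := by
        intro c
        rw [← algebraMap_eq]; exact th.commutes _
      rw [hC, hC, hC, C_1, C_neg, C_four]
      linear_combination (-(2 * X 0 + X 1 - X 2)) * C4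
    simp only [map_mul, map_add, map_pow, hm, th_ZZ, th_X0, th_X1] at h3
    have h4 := congrArg (Lam r e lam) h3
    rw [Lam_add, Lam_add, Lam_add, Lam_z (by omega), Lam_x (fun j hj => hl2 j (by omega)),
      Lam_y (fun j hj => hl1 j (by omega)),
      Lam_xy h1 (fun t ht => hl3 t (by omega))] at h4
    -- compute the left-hand side
    have hexp : ((2 * X 0 + X 2) ^ (r + 1) * (X 0 ^ (i - 1) * X 1 ^ (e - i)) : R3) =
        ∑ j ∈ Finset.range (r + 1 + 1), C ((r + 1).choose j * 2 ^ j : ℝ) *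
          (X 0 ^ (j + (i - 1)) * X 1 ^ (e - i) * X 2 ^ (r + 1 - j)) := by
      rw [add_pow, Finset.sum_mul]
      refine Finset.sum_congr rfl (fun j _ => ?_)
      have e1 : (C ((r + 1).choose j * 2 ^ j : ℝ) : R3) = ((r + 1).choose j : R3) * 2 ^ j := by
        rw [C_mul, C_pow, C_two]; simp
      rw [e1, mul_pow, pow_add]
      ring
    rw [hexp, Lam_sum] at h4
    simp_rw [Lam_C_mul] at h4
    rw [Finset.sum_eq_single 1] at h4
    · rw [Lam_mon _ _ _ (by omega)] at h4
      have e2 : 1 + (i - 1) = i := by omega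
      rw [e2] at h4
      simp at h4
      rcases h4 with h4 | h4
      · have : (0 : ℝ) < (r : ℝ) + 1 := by positivity
        linarith
      · exact hi h4
    · intro j hj hj1
      rw [Finset.mem_range] at hj
      rw [Lam_mon_ne _ _ _ (by omega), mul_zero]
    · intro h
      rw [Finset.mem_range] at h
      omega

end Pool.Agent.H89.Spline
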